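import Mathlib.Data.Nat.Basic

/-! A checker, run by the kernel, for branching certificates that bound the number of maximal
acyclic vertex sets of a semicomplete digraph.  Matrices of bits are packed with stride 16. -/

namespace Pool.Agent.MP_75ef89_co

def ones : ℕ := 0x1000100010001000100010001000100010001000100010001000100010001
def mag : ℕ := 0x200040008001000200040008001000200040008001000200040008001
def t8 : ℕ := 0x8776766576656554766565546554544376656554655454436554544354434332766565546554544365545443544343326554544354434332544343324332322176656554655454436554544354434332655454435443433254434332433232216554544354434332544343324332322154434332433232214332322132212110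

def nib (s i : ℕ) : ℕ := Nat.land (Nat.shiftRight s i) 15
def row (M i : ℕ) : ℕ := Nat.land (Nat.shiftRight M (Nat.mul 16 i)) 65535
def col (M i : ℕ) : ℕ := Nat.land (Nat.shiftRight M i) ones
def dif (a b : ℕ) : ℕ := Nat.xor a (Nat.land a b)
def bit (i : ℕ) : ℕ := Nat.shiftLeft 1 i
def tb (x i : ℕ) : Bool := Nat.beq (Nat.land (Nat.shiftRight x i) 1) 1
def spr (x : ℕ) : ℕ := Nat.land (Nat.mul x mag) ones
def pc (x : ℕ) : ℕ :=
  Nat.add (nib t8 (Nat.mul 4 (Nat.land x 255))) (nib t8 (Nat.mul 4 (Nat.shiftRight x 8)))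
def lo (r : ℕ) : ℕ := Nat.land r 4294967295
def hi (r : ℕ) : ℕ := Nat.shiftRight r 32
def pk (s b : ℕ) : ℕ := Nat.add (Nat.shiftLeft s 32) b
def wt (w r d : ℕ) : ℕ := lo (Nat.shiftRight w (Nat.mul 32 (Nat.add (Nat.mul 4 r) d)))
def pay (s b c : ℕ) : ℕ := bif Nat.ble c b then pk s (Nat.sub b c) else 0
def sub (a b : ℕ) : Bool := Nat.beq (Nat.land a b) a
def pos (i j : ℕ) : ℕ := bit (Nat.add (Nat.mul 16 i) j)

/-- Contraction of the vertex named `y`. -/
def con (g : ℕ → ℕ → ℕ → ℕ → ℕ → ℕ → ℕ → ℕ → ℕ → ℕ → ℕ) (Y T P Q pres cl dom U y s b : ℕ) : ℕ :=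
  (fun rY rT rP rQ cY cT =>
    g (Nat.lor Y (Nat.mul cY rY)) (Nat.lor T (Nat.mul cT rT))
      (Nat.lor P (Nat.mul (dif (col P y) cT) (dif rP rT)))
      (Nat.lor Q (Nat.mul (dif (col Q y) cY) (dif rQ rY)))
      (dif pres (Nat.lor (Nat.land rP rQ) (bit y)))
      (bif tb dom y then cl else dif cl (dif rP rT))
      (bif tb dom y then Nat.lor dom rT else dom)
      (dif U (Nat.lor (Nat.land rY rT) (bit y))) s b)
    (row Y y) (row T y) (row P y) (row Q y) (col Y y) (col T y)

/-- No vertex can block the excluded vertex named `x`. -/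
def prune (Y P Q pres cl dom U x : ℕ) : Bool :=
  tb (Nat.land (dif pres U) cl) x &&
  (fun B A => Nat.beq (Nat.land B A) 0 && sub B dom && sub (Nat.land (Nat.mul (spr B) A) Q) Y)
    (Nat.land U (row Q x)) (Nat.land U (row P x))

def ev (w k : ℕ) : ℕ → ℕ → ℕ → ℕ → ℕ → ℕ → ℕ → ℕ → ℕ → ℕ → ℕ → ℕ
  | 0, _, _, _, _, _, _, _, _, _, _ => 0
  | f + 1, Y, T, P, Q, pres, cl, dom, U, s, b =>
    bif Nat.beq (Nat.land s 7) 0 then
      bif tb U (nib s 3) then
        (fun r => bif Nat.beq r 0 then 0 else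
            ev w k f Y T P Q pres cl dom (Nat.xor U (bit (nib s 3))) (hi r) (lo r))
          (con (ev w k f) Y T P Q pres cl dom U (nib s 3) (Nat.shiftRight s 7) b)
      else 0
    else bif Nat.beq (Nat.land s 7) 3 then
      pay (Nat.shiftRight s 3) b (wt w (Nat.sub k (pc U)) 3)
    else bif Nat.beq (Nat.land s 7) 4 then
      (fun d => bif tb (Nat.land U cl) (nib s 3) && Nat.blt d 3 then
          pay (Nat.shiftRight s 7) b (wt w (Nat.sub k (pc U)) d) else 0)
        (pc (dif (Nat.land U (row Q (nib s 3))) (bit (nib s 3))))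
    else bif Nat.beq (Nat.land s 7) 2 then
      bif prune Y P Q pres cl dom U (nib s 3) then pk (Nat.shiftRight s 7) b else 0
    else
      bif tb U (nib s 3) then
        (fun r0 => bif Nat.beq r0 0 then 0 else
          (fun r1 => bif Nat.beq r1 0 then 0 else
            (fun r2 => bif Nat.beq r2 0 then 0 else
                pk (hi r2) (bif Nat.ble (lo r0) (lo r2) then lo r0 else lo r2))
              (ev w k f Y T P Q (Nat.lor pres (bit (nib s 3))) cl dom
                (Nat.xor U (bit (nib s 3))) (hi r1) (lo r1)))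
            (con (ev w k f) Y T P Q pres cl dom U (nib s 3) (hi r0) b))
          (ev w k f Y T P Q pres cl dom (Nat.xor U (bit (nib s 3))) (Nat.shiftRight s 7) b)
      else 0

def msk (k : ℕ) : ℕ := Nat.sub (bit k) 1
def pv (p i : ℕ) : ℕ := nib p (Nat.mul 4 i)

def orPow (p : ℕ) : ℕ → ℕ
  | 0 => 0
  | i + 1 => Nat.lor (orPow p i) (bit (pv p i))

def pvec (p x : ℕ) : ℕ → ℕ
  | 0 => 0
  | i + 1 => Nat.lor (pvec p x i) (Nat.shiftLeft (Nat.land (Nat.shiftRight x (pv p i)) 1) i)

def pcol (p M : ℕ) : ℕ → ℕ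
  | 0 => 0
  | i + 1 => Nat.lor (pcol p M i) (Nat.shiftLeft (col M (pv p i)) i)

def prow (p M : ℕ) : ℕ → ℕ
  | 0 => 0
  | i + 1 => Nat.lor (prow p M i) (Nat.shiftLeft (row M (pv p i)) (Nat.mul 16 i))

def pm (p k M : ℕ) : ℕ := prow p (pcol p M k) k

def fld (e i : ℕ) : ℕ := Nat.mod (Nat.shiftRight e (Nat.add 32 (Nat.mul 256 i))) (bit 256)

def refOK (e p k Y T P Q cl : ℕ) : Bool :=
  Nat.beq (nib e 0) k && Nat.beq (orPow p k) (msk k) &&
  sub (row (Nat.shiftRight e 16) 0) (pvec p cl k) &&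
  sub (fld e 0) (pm p k Y) && sub (fld e 1) (pm p k T) &&
  sub (pm p k P) (fld e 2) && sub (pm p k Q) (fld e 3)

def cross (k : ℕ) : ℕ := Nat.lor (Nat.shiftLeft 65535 (Nat.mul 16 k)) (Nat.shiftLeft ones k)

def ot (tbl : ℕ → ℕ) (w dl tg j : ℕ) : ℕ → ℕ → ℕ → ℕ → ℕ → ℕ → ℕ → ℕ → ℕ
  | 0, _, _, _, _, _, _, _ => 0
  | f + 1, k, Y, T, P, Q, cl, s =>
    bif Nat.beq (Nat.land s 7) 0 then
      bif Nat.blt (nib s 3) k && Nat.blt (nib s 7) k && !(Nat.beq (nib s 3) (nib s 7)) then
        (fun r => bif Nat.beq r 0 then 0 else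
            ot tbl w dl tg j f k (Nat.lor Y (pos (nib s 7) (nib s 3)))
              (Nat.lor T (pos (nib s 3) (nib s 7))) (Nat.xor P (pos (nib s 3) (nib s 7)))
              (Nat.xor Q (pos (nib s 7) (nib s 3))) cl r)
          (ot tbl w dl tg j f k (Nat.lor Y (pos (nib s 3) (nib s 7)))
            (Nat.lor T (pos (nib s 7) (nib s 3))) P Q cl (Nat.shiftRight s 11))
      else 0
    else bif Nat.beq (Nat.land s 7) 4 then
      hi (ev w k 40 Y T P Q (msk k) cl cl (msk k) (Nat.shiftRight s 3) tg)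
    else bif Nat.beq (Nat.land s 7) 1 then
      bif Nat.blt (nib s 3) k && Nat.blt k 15 then
        (fun r => bif Nat.beq r 0 then 0 else
            ot tbl w dl tg j f (Nat.succ k)
              (Nat.lor (dif Y (cross k)) (Nat.lor (pos k (nib s 3)) (Nat.shiftLeft (spr cl) k)))
              (Nat.lor (dif T (cross k))
                (Nat.lor (pos (nib s 3) k) (Nat.shiftLeft cl (Nat.mul 16 k))))
              (Nat.xor (Nat.lor P (cross k)) (Nat.shiftLeft cl (Nat.mul 16 k)))
              (Nat.xor (Nat.lor Q (cross k)) (Nat.shiftLeft (spr cl) k)) cl r)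
          (ot tbl w dl tg j f k Y T P Q (Nat.lor cl (bit (nib s 3))) (Nat.shiftRight s 7))
      else 0
    else bif Nat.beq (Nat.land s 7) 5 then
      bif Nat.blt (nib s 3) k && tb cl (nib s 7) && Nat.blt (pc (dif (Nat.land (row Q (nib s 7))
          (msk k)) (Nat.lor (bit (nib s 3)) (bit (nib s 7))))) dl then
        ot tbl w dl tg j f k (Nat.lor Y (pos (nib s 3) (nib s 7)))
          (Nat.lor T (pos (nib s 7) (nib s 3))) P Q cl (Nat.shiftRight s 11)
      else 0
    else bif Nat.beq (Nat.land s 7) 2 then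
      bif tb cl (nib s 3) &&
          Nat.blt (pc (dif (Nat.land (row Q (nib s 3)) (msk k)) (bit (nib s 3)))) dl then
        Nat.shiftRight s 7
      else 0
    else
      bif Nat.blt (Nat.land (Nat.shiftRight s 3) 4095) j &&
          refOK (tbl (Nat.land (Nat.shiftRight s 3) 4095))
            (Nat.land (Nat.shiftRight s 15) 1152921504606846975) k Y T P Q cl then
        Nat.shiftRight s 75
      else 0

def chkOne (tbl : ℕ → ℕ) (w dl tg j s : ℕ) : Bool :=
  (fun e => !(Nat.beq (ot tbl w dl tg j 200 (nib e 0) (fld e 0) (fld e 1) (fld e 2) (fld e 3)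
    (row (Nat.shiftRight e 16) 0) s) 0)) (tbl j)

def chkAll (tbl : ℕ → ℕ) (w dl tg : ℕ) : ℕ → List ℕ → Bool
  | _, [] => true
  | j, s :: ss => chkOne tbl w dl tg j s && chkAll tbl w dl tg (Nat.succ j) ss

def look (L : List ℕ) (j : ℕ) : ℕ :=
  Nat.mod (Nat.shiftRight (L.getD (Nat.div j 16) 0) (Nat.mul 1056 (Nat.mod j 16))) (bit 1056)

end Pool.Agent.MP_75ef89_co
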