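import Mathlib
import Pool.Agent.MP_75ef89_co.Chk

/-! Bit-level facts about the operations of the checker. -/

namespace Pool.Agent.MP_75ef89_co

open Finset

theorem tb_lor (a b j : ℕ) : (Nat.lor a b).testBit j = (a.testBit j || b.testBit j) :=
  Nat.testBit_or a b j

theorem tb_land (a b j : ℕ) : (Nat.land a b).testBit j = (a.testBit j && b.testBit j) :=
  Nat.testBit_and a b j

theorem tb_xor (a b j : ℕ) : (Nat.xor a b).testBit j = (a.testBit j ^^ b.testBit j) :=
  Nat.testBit_xor a b j

theorem tb_shr (a i j : ℕ) : (Nat.shiftRight a i).testBit j = a.testBit (i + j) :=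
  Nat.testBit_shiftRight a

theorem tb_shl (a i j : ℕ) :
    (Nat.shiftLeft a i).testBit j = (decide (i ≤ j) && a.testBit (j - i)) :=
  Nat.testBit_shiftLeft a

theorem tb_bit (i j : ℕ) : (bit i).testBit j = decide (i = j) := by
  have : bit i = 2 ^ i := Nat.one_shiftLeft i
  rw [this, Nat.testBit_two_pow]

theorem tb_dif (a b j : ℕ) : (dif a b).testBit j = (a.testBit j && !b.testBit j) := by
  unfold dif
  rw [tb_xor, tb_land]
  cases a.testBit j <;> cases b.testBit j <;> rfl

theorem tb_ffff (j : ℕ) : Nat.testBit 65535 j = decide (j < 16) :=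
  Nat.testBit_two_pow_sub_one 16 j

theorem tb_row (M i j : ℕ) : (row M i).testBit j = (M.testBit (16 * i + j) && decide (j < 16)) := by
  unfold row
  rw [tb_land, tb_shr, tb_ffff]
  rfl

theorem tb_ones (t : ℕ) : ones.testBit t = (decide (t % 16 = 0) && decide (t < 256)) := by
  by_cases h : t < 256
  · revert t
    decide +kernel
  · have : ones < 2 ^ t := lt_of_lt_of_le (by decide +kernel : ones < 2 ^ 256)
      (Nat.pow_le_pow_right (by norm_num) (by omega))
    rw [Nat.testBit_lt_two_pow this]
    simp [h]

theorem tb_mag (t : ℕ) : mag.testBit t = (decide (t % 15 = 0) && decide (t < 240)) := by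
  by_cases h : t < 240
  · revert t
    decide +kernel
  · have : mag < 2 ^ t := lt_of_lt_of_le (by decide +kernel : mag < 2 ^ 240)
      (Nat.pow_le_pow_right (by norm_num) (by omega))
    rw [Nat.testBit_lt_two_pow this]
    simp [h]

theorem tb_col (M i t : ℕ) :
    (col M i).testBit t = (M.testBit (i + t) && (decide (t % 16 = 0) && decide (t < 256))) := by
  unfold col
  rw [tb_land, tb_shr, tb_ones]

theorem tb_eq (x i : ℕ) : tb x i = x.testBit i := by
  unfold tb
  have h : Nat.land (Nat.shiftRight x i) 1 = (x >>> i) % 2 := Nat.and_one_is_mod _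
  rw [h, Nat.testBit_eq_decide_div_mod_eq, Nat.shiftRight_eq_div_pow]
  rw [Bool.eq_iff_iff, Nat.beq_eq, decide_eq_true_eq]

theorem tb_pos (i j t : ℕ) : (pos i j).testBit t = decide (16 * i + j = t) := tb_bit _ _

theorem tb_msk (k j : ℕ) : (msk k).testBit j = decide (j < k) := by
  have : msk k = 2 ^ k - 1 := by
    unfold msk bit
    rw [show Nat.shiftLeft 1 k = 2 ^ k from Nat.one_shiftLeft k]
    rfl
  rw [this, Nat.testBit_two_pow_sub_one]

theorem sub_imp {a b : ℕ} (h : sub a b = true) {t : ℕ} (ht : a.testBit t = true) :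
    b.testBit t = true := by
  have h1 : Nat.land a b = a := Nat.eq_of_beq_eq_true h
  have h2 := tb_land a b t
  rw [h1, ht] at h2
  simpa using h2.symm

theorem lt_of_bits {x s : ℕ} (h : ∀ t, x.testBit t = true → t < s) : x < 2 ^ s := by
  refine Nat.lt_pow_two_of_testBit x fun i hi => ?_
  by_contra hc
  exact absurd (h i (by simpa using hc)) (by omega)

theorem tb_mul (s : ℕ) (x : ℕ) (hx : x < 2 ^ s) (j : ℕ) (hj : j < s) : ∀ (z c : ℕ),
    (∀ t, c.testBit t = true → t % s = 0) →
      (c * x).testBit (s * z + j) = (c.testBit (s * z) && x.testBit j) := by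
  have dec : ∀ c : ℕ, (∀ t, c.testBit t = true → t % s = 0) →
      c * x = 2 ^ s * (c / 2 ^ s * x) + (bif c.testBit 0 then x else 0) := by
    intro c hc
    have h1 : c % 2 ^ s = bif c.testBit 0 then 1 else 0 := by
      apply Nat.eq_of_testBit_eq
      intro i
      rw [Nat.testBit_mod_two_pow]
      by_cases hi : i = 0
      · subst hi
        have : 0 < s := by omega
        cases h0 : c.testBit 0 <;> simp [this]
      · have h2 : (bif c.testBit 0 then 1 else 0 : ℕ).testBit i = false := by
          cases c.testBit 0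
          · simp
          · simpa using Nat.testBit_two_pow_of_ne (n := 0) (m := i) (Ne.symm hi)
        rw [h2]
        by_cases his : i < s
        · cases h3 : c.testBit i
          · simp
          · have := hc i h3
            rw [Nat.mod_eq_of_lt his] at this
            exact absurd this hi
        · simp [his]
    conv_lhs => rw [← Nat.div_add_mod c (2 ^ s), h1]
    cases c.testBit 0 <;> simp [add_mul, mul_assoc]
  intro z
  induction z with
  | zero =>
    intro c hc
    rw [dec c hc, Nat.testBit_two_pow_mul_add _ (by cases c.testBit 0 <;> simp [hx])]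
    cases h0 : c.testBit 0 <;> simp [hj]
  | succ z ih =>
    intro c hc
    rw [dec c hc, Nat.testBit_two_pow_mul_add _ (by cases c.testBit 0 <;> simp [hx]),
      if_neg (by rw [mul_add]; omega), show s * (z + 1) + j - s = s * z + j by
        rw [mul_add]; omega, ih, Nat.testBit_div_two_pow]
    · rw [show s * z + s = s * (z + 1) by ring]
    · intro t ht
      rw [Nat.testBit_div_two_pow] at ht
      have := hc _ ht
      simpa using this

theorem tb_outer {c x : ℕ} (hc : ∀ t, c.testBit t = true → t % 16 = 0)
    (hx : ∀ t, x.testBit t = true → t < 16) (z : ℕ) {j : ℕ} (hj : j < 16) :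
    (Nat.mul c x).testBit (16 * z + j) = (c.testBit (16 * z) && x.testBit j) :=
  tb_mul 16 x (lt_of_bits hx) j hj z c hc

theorem tb_spr {x : ℕ} (hx : ∀ t, x.testBit t = true → t < 15) (t : ℕ) :
    (spr x).testBit t = (decide (t % 16 = 0) && x.testBit (t / 16)) := by
  unfold spr
  rw [tb_land, tb_ones]
  by_cases h : t % 16 = 0
  · have e1 : Nat.mul x mag = mag * x := Nat.mul_comm x mag
    have hm : ∀ t, mag.testBit t = true → t % 15 = 0 := by
      intro t ht
      rw [tb_mag] at ht
      simp only [Bool.and_eq_true, decide_eq_true_eq] at ht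
      exact ht.1
    by_cases h2 : t / 16 < 15
    · have := tb_mul 15 x (lt_of_bits hx) (t / 16) h2 (t / 16) mag hm
      rw [show 15 * (t / 16) + t / 16 = t by omega, tb_mag] at this
      rw [e1, this]
      have h3 : t < 256 := by omega
      have h4 : 15 * (t / 16) < 240 := by omega
      simp [h, h3, h4]
    · have h3 : x.testBit (t / 16) = false := by
        by_contra hc
        exact h2 (hx _ (by simpa using hc))
      by_cases h4 : t < 256
      · have := tb_mul 15 x (lt_of_bits hx) 0 (by norm_num) 16 mag hm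
        rw [show 15 * 16 + 0 = t by omega, tb_mag] at this
        rw [e1, this, h3]
        simp
      · simp [h3, h4]
  · simp [h]

theorem nib_lt (s i : ℕ) : nib s i < 16 :=
  Nat.lt_succ_of_le Nat.and_le_right

theorem card_bits_le {x : ℕ} (hx : ∀ t, x.testBit t = true → t < 16) :
    #{i ∈ range 16 | x.testBit i} ≤ pc x := by
  have h8 : ∀ y < 256, #{i ∈ range 8 | y.testBit i} = nib t8 (Nat.mul 4 y) := by
    decide +kernel
  have h1 : Nat.land x 255 < 256 := Nat.lt_succ_of_le Nat.and_le_right
  have h2 : Nat.shiftRight x 8 < 256 := by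
    refine lt_of_bits (s := 8) fun t ht => ?_
    rw [tb_shr] at ht
    have := hx _ ht
    omega
  unfold pc
  rw [← h8 _ h1, ← h8 _ h2]
  have hs : ({i ∈ range 16 | x.testBit i} : Finset ℕ) ⊆
      {i ∈ range 8 | (Nat.land x 255).testBit i} ∪
        ({i ∈ range 8 | (Nat.shiftRight x 8).testBit i} : Finset ℕ).image (8 + ·) := by
    intro i hi
    simp only [mem_filter, mem_range, mem_union, mem_image] at hi ⊢
    by_cases h : i < 8
    · left
      refine ⟨h, ?_⟩
      rw [tb_land, hi.2, show (255 : ℕ) = 2 ^ 8 - 1 from rfl, Nat.testBit_two_pow_sub_one]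
      simp [h]
    · right
      refine ⟨i - 8, ⟨by omega, ?_⟩, by omega⟩
      rw [tb_shr, show 8 + (i - 8) = i by omega, hi.2]
  exact (card_le_card hs).trans ((card_union_le _ _).trans (add_le_add le_rfl card_image_le))

theorem lo_pk {s b : ℕ} (hb : b < 4294967296) : lo (pk s b) = b := by
  have h1 : lo (pk s b) = (s <<< 32 + b) % 2 ^ 32 := Nat.and_two_pow_sub_one_eq_mod _ 32
  rw [h1, Nat.shiftLeft_eq]
  omega

theorem tb_orPow (p t : ℕ) : ∀ m, (orPow p m).testBit t = true ↔ ∃ i < m, pv p i = t
  | 0 => by simp [orPow]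
  | m + 1 => by
    rw [orPow, tb_lor, Bool.or_eq_true, tb_orPow p t m, tb_bit, decide_eq_true_eq]
    constructor
    · rintro (⟨i, hi, h⟩ | h)
      · exact ⟨i, by omega, h⟩
      · exact ⟨m, by omega, h⟩
    · rintro ⟨i, hi, h⟩
      by_cases him : i = m
      · exact Or.inr (him ▸ h)
      · exact Or.inl ⟨i, by omega, h⟩

theorem tb_pvec (p x t : ℕ) : ∀ m, (pvec p x m).testBit t = (decide (t < m) && x.testBit (pv p t))
  | 0 => by simp [pvec]
  | m + 1 => by
    rw [pvec, tb_lor, tb_pvec p x t m, tb_shl, tb_land, tb_shr,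
      show (1 : ℕ) = 2 ^ 0 from rfl, Nat.testBit_two_pow]
    rcases lt_trichotomy t m with h | h | h
    · have h1 : ¬ m ≤ t := by omega
      have h2 : t < m + 1 := by omega
      simp [h, h1, h2]
    · subst h
      simp
    · have h1 : ¬ t < m := by omega
      have h2 : ¬ t < m + 1 := by omega
      have h3 : ¬ 0 = t - m := by omega
      simp [h1, h2, h3]

theorem tb_pcol (p M : ℕ) {a j : ℕ} (ha : a < 16) (hj : j < 16) : ∀ m ≤ 16,
    (pcol p M m).testBit (16 * a + j) = (decide (j < m) && M.testBit (16 * a + pv p j))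
  | 0, _ => by simp [pcol]
  | m + 1, hm => by
    rw [pcol, tb_lor, tb_pcol p M ha hj m (by omega), tb_shl, tb_col]
    by_cases h : j = m
    · subst h
      have h1 : 16 * a < 256 := by omega
      simp [h1, add_comm]
    · have h1 : (j < m + 1) = (j < m) := by
        apply propext
        omega
      by_cases h2 : m ≤ 16 * a + j
      · have h3 : ¬ (16 * a + j - m) % 16 = 0 := by omega
        simp [h1, h3]
      · simp [h1, h2]

theorem tb_prow (p M a : ℕ) {j : ℕ} (hj : j < 16) : ∀ m,
    (prow p M m).testBit (16 * a + j) = (decide (a < m) && M.testBit (16 * pv p a + j))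
  | 0 => by simp [prow]
  | m + 1 => by
    rw [prow, tb_lor, tb_prow p M a hj m, tb_shl, tb_row, show Nat.mul 16 m = 16 * m from rfl]
    by_cases h : a = m
    · subst h
      simp [hj]
    · have h1 : (a < m + 1) = (a < m) := by
        apply propext
        omega
      by_cases h2 : 16 * m ≤ 16 * a + j
      · have h3 : ¬ 16 * a + j - 16 * m < 16 := by omega
        simp [h1, h3]
      · simp [h1, h2]

theorem tb_pm (p M : ℕ) {k i j : ℕ} (hk : k ≤ 16) (hi : i < k) (hj : j < k) :
    (pm p k M).testBit (16 * i + j) = M.testBit (16 * pv p i + pv p j) := by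
  unfold pm
  rw [tb_prow _ _ _ (by omega), tb_pcol _ _ (show pv p i < 16 from nib_lt _ _) (by omega) k hk]
  simp [hi, hj]

theorem tb_cross {k i j : ℕ} (hk : k < 16) (hi : i < 16) (hj : j < 16) :
    (cross k).testBit (16 * i + j) = (decide (i = k) || decide (j = k)) := by
  unfold cross
  rw [tb_lor, tb_shl, tb_shl, tb_ffff, tb_ones, show Nat.mul 16 k = 16 * k from rfl]
  rw [Bool.eq_iff_iff]
  simp only [Bool.or_eq_true, Bool.and_eq_true, decide_eq_true_eq]
  omega

end Pool.Agent.MP_75ef89_co
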