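import Pool.Agent.MP_75ef89_co.D1T

namespace Pool.Agent.MP_75ef89_co

def st1_0 : List ℕ := [
  0x2102340c80881122420c0088841141051880108822820a3100211081198640440870e10600443208a0828c40084411410518801088408c4208111330d03002221340860204681986cc10110204681224506122460cc1011108438714300221904504146200422102320d008810a1440c00884412410918801108248212310022108118831021a681986004432860d00408c410808a0828c40084508120,
  0x846c8300220428d836414300220428a9826614aa6d4a060c0088a488428c008844236a18011022c6d4206004408b1136858300222152116300222908da86004408b1801114825821631002290811884102226a1a06004442a81140408c418810d350cc30022195306a0204620840851801108a90,
  0x846c8300220428c008844114105188010880000000029a108000b0000000005432100016102310820444d02450cc300220404b042c008229426810c12808da0600440891b06d018600440890d304c81934d9950c180110ca10891801110846c8300220428d9040c008810a22609984289b42a1830022212210a300221145011b20c008810a1440d830022042491824509122820c00888488428c008844204620c408699834d9950d030022045410229311499430680236618011021c6cc1060044087093645830022113210e300221908d90600440849b0661b30418011021224cc2034d033040e3060044324421224cc206418011088408c42881162c40d9030c0088102126404288454a98350102310420424c81430d43002204047041c00421922a402364180110212640932049b22a0c360c00881091266141a660d366541038c180110c9108489330a1906004422102310420424d4320c008845480408c4208111340cc3002202489143302122450cc310022a042860d012808118821021428a1a0600440809608580084524508120,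
  0x423600440000000005423100026000000000a86420004c204620c408118821021c38a1906004408096085800c45210d320514330c00881012c10b00188a42043110c1a022648c19008d8011144090000000000423100006000000000086420000c204620c40869906618011011c3881901070e20641880110c0444102213110992306404846222080811986404408119838404432109320c008808a143020a1430c400864088908c44310118884205042010441228484622080]

theorem ok1_0 : chkAllF (look tab1) wtab 1 tg1 st1_0 0 = true := by
  decide +kernel

end Pool.Agent.MP_75ef89_co
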