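import Pool.Agent.MP_75ef89_co.Outer
import Pool.Agent.MP_75ef89_co.D1P0
import Pool.Agent.MP_75ef89_co.D2P0
import Pool.Agent.MP_75ef89_co.D3P0
import Pool.Agent.MP_75ef89_co.D3P1
import Pool.Agent.MP_75ef89_co.D3P2
import Pool.Agent.MP_75ef89_co.D3P3
import Pool.Agent.MP_75ef89_co.D4P0
import Pool.Agent.MP_75ef89_co.D4P1
import Pool.Agent.MP_75ef89_co.D4P2
import Pool.Agent.MP_75ef89_co.D4P3
import Pool.Agent.MP_75ef89_co.D4P4
import Pool.Agent.MP_75ef89_co.D4P5
import Pool.Agent.MP_75ef89_co.D4P6
import Pool.Agent.MP_75ef89_co.D4P7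
import Pool.Agent.MP_75ef89_co.D4P8
import Pool.Agent.MP_75ef89_co.D4P9
import Pool.Agent.MP_75ef89_co.D4P10
import Pool.Agent.MP_75ef89_co.D4P11

/-! The checked certificates, put together. -/

namespace Pool.Agent.MP_75ef89_co

set_option synthInstance.maxSize 1000

variable {α : Type} [DecidableEq α] {n : ℕ} {Z : ℝ}

theorem step {w tg dl j m : ℕ} {tbl : ℕ → ℕ} {L : List ℕ} (hT : Table α n w Z)
    (htg : tg < 4294967295) (h : chkAllF tbl w dl tg L j = true) (hm : j + L.length = m)
    (hG : ∀ i < j, Good α n dl (tg * Z) (tbl i)) : ∀ i < m, Good α n dl (tg * Z) (tbl i) :=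
  hm ▸ chkAll_sound hT htg L j (chkAllF_eq tbl w dl tg L j ▸ h) hG

/-- The code `c` describes a vertex `0` whose in-neighbours are exactly `1, …, d`. -/
def RootOK (c d : ℕ) : Prop :=
  nib c 0 = d + 1 ∧ row (Nat.shiftRight c 16) 0 = 1 ∧ ∀ i < 16, ∀ j < 16,
    ((fld c 0).testBit (16 * i + j) = true → j = 0 ∧ i ≠ 0) ∧
    ((fld c 1).testBit (16 * i + j) = true → i = 0 ∧ j ≠ 0) ∧
    (fld c 2).testBit (16 * i + j) = true ∧ (fld c 3).testBit (16 * i + j) = true

theorem root1 : RootOK (look tab1 3) 1 := by
  unfold RootOK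
  refine ⟨by decide +kernel, by decide +kernel, ?_⟩
  decide +kernel

theorem good1 (hT : Table α n wtab Z) : Good α n 1 (tg1 * Z) (look tab1 3) := by
  have ht : tg1 < 4294967295 := by decide
  have h0 : ∀ i < 0, Good α n 1 (tg1 * Z) (look tab1 i) := fun _ h => absurd h (by omega)
  have h4 := step (m := 4) hT ht ok1_0 rfl h0
  exact h4 _ (by omega)

theorem root2 : RootOK (look tab2 39) 2 := by
  unfold RootOK
  refine ⟨by decide +kernel, by decide +kernel, ?_⟩
  decide +kernel

theorem good2 (hT : Table α n wtab Z) : Good α n 2 (tg2 * Z) (look tab2 39) := by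
  have ht : tg2 < 4294967295 := by decide
  have h0 : ∀ i < 0, Good α n 2 (tg2 * Z) (look tab2 i) := fun _ h => absurd h (by omega)
  have h31 := step (m := 31) hT ht ok2_0 rfl h0
  have h40 := step (m := 40) hT ht ok2_31 rfl h31
  exact h40 _ (by omega)

theorem root3 : RootOK (look tab3 295) 3 := by
  unfold RootOK
  refine ⟨by decide +kernel, by decide +kernel, ?_⟩
  decide +kernel

theorem good3 (hT : Table α n wtab Z) : Good α n 3 (tg3 * Z) (look tab3 295) := by
  have ht : tg3 < 4294967295 := by decide
  have h0 : ∀ i < 0, Good α n 3 (tg3 * Z) (look tab3 i) := fun _ h => absurd h (by omega)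
  have h19 := step (m := 19) hT ht ok3_0 rfl h0
  have h28 := step (m := 28) hT ht ok3_19 rfl h19
  have h32 := step (m := 32) hT ht ok3_28 rfl h28
  have h47 := step (m := 47) hT ht ok3_32 rfl h32
  have h49 := step (m := 49) hT ht ok3_47 rfl h47
  have h75 := step (m := 75) hT ht ok3_49 rfl h49
  have h92 := step (m := 92) hT ht ok3_75 rfl h75
  have h105 := step (m := 105) hT ht ok3_92 rfl h92
  have h122 := step (m := 122) hT ht ok3_105 rfl h105
  have h142 := step (m := 142) hT ht ok3_122 rfl h122
  have h177 := step (m := 177) hT ht ok3_142 rfl h142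
  have h197 := step (m := 197) hT ht ok3_177 rfl h177
  have h224 := step (m := 224) hT ht ok3_197 rfl h197
  have h238 := step (m := 238) hT ht ok3_224 rfl h224
  have h246 := step (m := 246) hT ht ok3_238 rfl h238
  have h259 := step (m := 259) hT ht ok3_246 rfl h246
  have h269 := step (m := 269) hT ht ok3_259 rfl h259
  have h275 := step (m := 275) hT ht ok3_269 rfl h269
  have h290 := step (m := 290) hT ht ok3_275 rfl h275
  have h296 := step (m := 296) hT ht ok3_290 rfl h290
  exact h296 _ (by omega)

theorem root4 : RootOK (look tab4 1192) 4 := by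
  unfold RootOK
  refine ⟨by decide +kernel, by decide +kernel, ?_⟩
  decide +kernel

theorem good4 (hT : Table α n wtab Z) : Good α n 4 (tg4 * Z) (look tab4 1192) := by
  have ht : tg4 < 4294967295 := by decide
  have h0 : ∀ i < 0, Good α n 4 (tg4 * Z) (look tab4 i) := fun _ h => absurd h (by omega)
  have h13 := step (m := 13) hT ht ok4_0 rfl h0
  have h35 := step (m := 35) hT ht ok4_13 rfl h13
  have h56 := step (m := 56) hT ht ok4_35 rfl h35
  have h70 := step (m := 70) hT ht ok4_56 rfl h56
  have h80 := step (m := 80) hT ht ok4_70 rfl h70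
  have h107 := step (m := 107) hT ht ok4_80 rfl h80
  have h123 := step (m := 123) hT ht ok4_107 rfl h107
  have h134 := step (m := 134) hT ht ok4_123 rfl h123
  have h148 := step (m := 148) hT ht ok4_134 rfl h134
  have h153 := step (m := 153) hT ht ok4_148 rfl h148
  have h164 := step (m := 164) hT ht ok4_153 rfl h153
  have h176 := step (m := 176) hT ht ok4_164 rfl h164
  have h203 := step (m := 203) hT ht ok4_176 rfl h176
  have h235 := step (m := 235) hT ht ok4_203 rfl h203
  have h254 := step (m := 254) hT ht ok4_235 rfl h235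
  have h281 := step (m := 281) hT ht ok4_254 rfl h254
  have h313 := step (m := 313) hT ht ok4_281 rfl h281
  have h333 := step (m := 333) hT ht ok4_313 rfl h313
  have h364 := step (m := 364) hT ht ok4_333 rfl h333
  have h371 := step (m := 371) hT ht ok4_364 rfl h364
  have h387 := step (m := 387) hT ht ok4_371 rfl h371
  have h403 := step (m := 403) hT ht ok4_387 rfl h387
  have h423 := step (m := 423) hT ht ok4_403 rfl h403
  have h437 := step (m := 437) hT ht ok4_423 rfl h423
  have h440 := step (m := 440) hT ht ok4_437 rfl h437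
  have h455 := step (m := 455) hT ht ok4_440 rfl h440
  have h492 := step (m := 492) hT ht ok4_455 rfl h455
  have h517 := step (m := 517) hT ht ok4_492 rfl h492
  have h544 := step (m := 544) hT ht ok4_517 rfl h517
  have h565 := step (m := 565) hT ht ok4_544 rfl h544
  have h580 := step (m := 580) hT ht ok4_565 rfl h565
  have h591 := step (m := 591) hT ht ok4_580 rfl h580
  have h626 := step (m := 626) hT ht ok4_591 rfl h591
  have h667 := step (m := 667) hT ht ok4_626 rfl h626
  have h674 := step (m := 674) hT ht ok4_667 rfl h667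
  have h684 := step (m := 684) hT ht ok4_674 rfl h674
  have h704 := step (m := 704) hT ht ok4_684 rfl h684
  have h755 := step (m := 755) hT ht ok4_704 rfl h704
  have h788 := step (m := 788) hT ht ok4_755 rfl h755
  have h805 := step (m := 805) hT ht ok4_788 rfl h788
  have h850 := step (m := 850) hT ht ok4_805 rfl h805
  have h876 := step (m := 876) hT ht ok4_850 rfl h850
  have h898 := step (m := 898) hT ht ok4_876 rfl h876
  have h916 := step (m := 916) hT ht ok4_898 rfl h898
  have h928 := step (m := 928) hT ht ok4_916 rfl h916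
  have h947 := step (m := 947) hT ht ok4_928 rfl h928
  have h965 := step (m := 965) hT ht ok4_947 rfl h947
  have h987 := step (m := 987) hT ht ok4_965 rfl h965
  have h1005 := step (m := 1005) hT ht ok4_987 rfl h987
  have h1012 := step (m := 1012) hT ht ok4_1005 rfl h1005
  have h1030 := step (m := 1030) hT ht ok4_1012 rfl h1012
  have h1039 := step (m := 1039) hT ht ok4_1030 rfl h1030
  have h1057 := step (m := 1057) hT ht ok4_1039 rfl h1039
  have h1073 := step (m := 1073) hT ht ok4_1057 rfl h1057
  have h1085 := step (m := 1085) hT ht ok4_1073 rfl h1073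
  have h1099 := step (m := 1099) hT ht ok4_1085 rfl h1085
  have h1130 := step (m := 1130) hT ht ok4_1099 rfl h1099
  have h1166 := step (m := 1166) hT ht ok4_1130 rfl h1130
  have h1185 := step (m := 1185) hT ht ok4_1166 rfl h1166
  have h1193 := step (m := 1193) hT ht ok4_1185 rfl h1185
  exact h1193 _ (by omega)

end Pool.Agent.MP_75ef89_co
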