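import Pool.Agent.MP_75ef89_co.Wt

namespace Pool.Agent.MP_75ef89_co

def tab1 : List ℕ := [
  0xffffffffffffffffffffffffffffffffffffffffffffffffffffffffffffffffffffffffffffffffffffffffffffffffffffffffffffffffffffffffffffffff0000000000000000000000000000000000000000000000000000000000000002000000000000000000000000000000000000000000000000000000000001000000010002fffffffffffffffffffffffffffffffffffffffffffdfffdfffdfff5fffeffc3fffffffffffffffffffffffffffffffffffffffffffefffefffafffeffc3fffd00000000000000000000000000000000000000000001000100050001003c00020000000000000000000000000000000000000000000200020002000a0001003c00030006fffffffffffffffffffffffffffffffffffffffffffdfffdffedffe5fffeffc3fffffffffffffffffffffffffffffffffffffffffffefff2fffafffeffc3fffd00000000000000000000000000000000000000000001000d00050021003c00020000000000000000000000000000000000000000000600020012001a0001003c00030006fffffffffffffffffffffffffffffffffffffffffffffffdfffdfff5fffeffe3fffffffffffffffffffffffffffffffffffffffffffffffefffafffeffe3fffd00000000000000000000000000000000000000000000000100050001001c00020000000000000000000000000000000000000000000000020002000a0001001c00030005]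

end Pool.Agent.MP_75ef89_co
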