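import Mathlib

/-! Maximal acyclic vertex sets of finite semicomplete digraphs: deletion and contraction. -/

namespace Pool.Agent.MP_75ef89_co

open Finset

variable {α : Type} [DecidableEq α]

/-- `r` is a loopless semicomplete digraph on `V`. -/
structure SC (r : α → α → Prop) (V : Finset α) : Prop where
  irr : ∀ a ∈ V, ¬ r a a
  tot : ∀ a ∈ V, ∀ b ∈ V, a ≠ b → r a b ∨ r b a

/-- No cycle of length at most three inside `W`. -/
def Ac (r : α → α → Prop) (W : Finset α) : Prop :=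
  (∀ a ∈ W, ∀ b ∈ W, r a b → ¬ r b a) ∧ ∀ a ∈ W, ∀ b ∈ W, ∀ c ∈ W, r a b → r b c → ¬ r c a

def MA (r : α → α → Prop) (V W : Finset α) : Prop :=
  W ⊆ V ∧ Ac r W ∧ ∀ x ∈ V, x ∉ W → ¬ Ac r (insert x W)

open Classical in
/-- Number of maximal acyclic subsets of `V` that avoid `X`. -/
noncomputable def cnt (r : α → α → Prop) (V : Finset α) (X : α → Prop) : ℕ :=
  #{W ∈ V.powerset | MA r V W ∧ ∀ x ∈ W, ¬ X x}

open Classical in
noncomputable def indeg (r : α → α → Prop) (V : Finset α) (v : α) : ℕ := #{u ∈ V | r u v}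

def rc (r : α → α → Prop) (y a b : α) : Prop := r a b ∨ (r a y ∧ r y b)

open Classical in
noncomputable def Vc (r : α → α → Prop) (V : Finset α) (y : α) : Finset α :=
  {z ∈ V | z ≠ y ∧ ¬ (r z y ∧ r y z)}

theorem mem_Vc {r : α → α → Prop} {V : Finset α} {y z : α} :
    z ∈ Vc r V y ↔ z ∈ V ∧ z ≠ y ∧ ¬ (r z y ∧ r y z) := by
  classical
  simp [Vc]

omit [DecidableEq α] in
theorem SC.mono {r : α → α → Prop} {V V' : Finset α} (h : SC r V) (hs : V' ⊆ V) : SC r V' :=
  ⟨fun a ha => h.irr a (hs ha), fun a ha b hb => h.tot a (hs ha) b (hs hb)⟩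

theorem SC.con {r : α → α → Prop} {V : Finset α} (h : SC r V) (y : α) : SC (rc r y) (Vc r V y) := by
  refine ⟨fun a ha => ?_, fun a ha b hb hab => ?_⟩
  · rw [mem_Vc] at ha
    rintro (h1 | h1)
    · exact h.irr a ha.1 h1
    · exact ha.2.2 h1
  · rw [mem_Vc] at ha hb
    exact (h.tot a ha.1 b hb.1 hab).imp Or.inl Or.inl

omit [DecidableEq α] in
theorem Ac.mono {r : α → α → Prop} {W W' : Finset α} (h : Ac r W) (hs : W' ⊆ W) : Ac r W' :=
  ⟨fun a ha b hb => h.1 a (hs ha) b (hs hb),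
    fun a ha b hb c hc => h.2 a (hs ha) b (hs hb) c (hs hc)⟩

omit [DecidableEq α] in
theorem Ac.trans {r : α → α → Prop} {V W : Finset α} (hV : SC r V) (hW : W ⊆ V) (h : Ac r W)
    {a b c : α} (ha : a ∈ W) (hb : b ∈ W) (hc : c ∈ W) (h1 : r a b) (h2 : r b c) : r a c := by
  by_cases hac : a = c
  · subst hac
    exact absurd h2 (h.1 a ha b hb h1)
  · rcases hV.tot a (hW ha) c (hW hc) hac with h3 | h3
    · exact h3
    · exact absurd h3 (h.2 a ha b hb c hc h1 h2)

/-- The cycles created by adding one vertex to an acyclic set. -/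
theorem blocked {r : α → α → Prop} {W : Finset α} {x : α} (hx : ¬ r x x) (hW : Ac r W)
    (h : ¬ Ac r (insert x W)) :
    ∃ b ∈ W, r b x ∧ (r x b ∨ ∃ a ∈ W, r x a ∧ r a b) := by
  by_contra hc
  push Not at hc
  apply h
  refine ⟨fun a ha b hb h1 h2 => ?_, fun a ha b hb c hc' h1 h2 h3 => ?_⟩
  · rw [mem_insert] at ha hb
    rcases ha with rfl | ha <;> rcases hb with rfl | hb
    · exact hx h1
    · exact (hc b hb h2).1 h1
    · exact (hc a ha h1).1 h2
    · exact hW.1 a ha b hb h1 h2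
  · rw [mem_insert] at ha hb hc'
    rcases ha with rfl | ha <;> rcases hb with rfl | hb <;> rcases hc' with rfl | hc'
    · exact hx h1
    · exact hx h1
    · exact hx h3
    · exact (hc c hc' h3).2 b hb h1 h2
    · exact hx h2
    · exact (hc a ha h1).2 c hc' h2 h3
    · exact (hc b hb h2).2 a ha h3 h1
    · exact hW.2 a ha b hb c hc' h1 h2 h3

theorem cnt_mono {r : α → α → Prop} {V : Finset α} {X X' : α → Prop}
    (h : ∀ x ∈ V, X' x → X x) : cnt r V X ≤ cnt r V X' := by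
  classical
  refine card_le_card fun W hW => ?_
  simp only [mem_filter, mem_powerset] at hW ⊢
  exact ⟨hW.1, hW.2.1, fun x hx h' => hW.2.2 x hx (h x (hW.1 hx) h')⟩

theorem cnt_del {r : α → α → Prop} {V V' : Finset α} {X : α → Prop}
    (h : ∀ x, x ∈ V' ↔ x ∈ V ∧ ¬ X x) : cnt r V X ≤ cnt r V' fun _ => False := by
  classical
  refine card_le_card fun W hW => ?_
  simp only [mem_filter, mem_powerset] at hW ⊢
  have hs : W ⊆ V' := fun x hx => (h x).2 ⟨hW.1 hx, hW.2.2 x hx⟩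
  exact ⟨hs, ⟨hs, hW.2.1.2.1, fun x hx => hW.2.1.2.2 x ((h x).1 hx).1⟩, fun _ _ => id⟩

theorem MA.con {r : α → α → Prop} {V W : Finset α} {y : α} (hV : SC r V) (h : MA r V W)
    (hy : y ∈ W) : MA (rc r y) (Vc r V y) (W.erase y) := by
  obtain ⟨hs, ha, hm⟩ := h
  have key : ∀ a ∈ W.erase y, ∀ b ∈ W.erase y, rc r y a b → r a b := by
    intro a h1 b h2 h3
    rcases h3 with h3 | h3
    · exact h3
    · exact ha.trans hV hs (mem_of_mem_erase h1) hy (mem_of_mem_erase h2) h3.1 h3.2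
  refine ⟨fun z hz => ?_, ⟨fun a h1 b h2 h3 h4 => ?_, fun a h1 b h2 c h3 h4 h5 h6 => ?_⟩,
    fun x hx hxW hac => ?_⟩
  · rw [mem_erase] at hz
    exact mem_Vc.2 ⟨hs hz.2, hz.1, fun h' => ha.1 z hz.2 y hy h'.1 h'.2⟩
  · exact ha.1 a (mem_of_mem_erase h1) b (mem_of_mem_erase h2) (key a h1 b h2 h3)
      (key b h2 a h1 h4)
  · exact ha.2 a (mem_of_mem_erase h1) b (mem_of_mem_erase h2) c (mem_of_mem_erase h3)
      (key a h1 b h2 h4) (key b h2 c h3 h5) (key c h3 a h1 h6)
  · rw [mem_Vc] at hx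
    have hxW' : x ∉ W := fun h' => hxW (mem_erase.2 ⟨hx.2.1, h'⟩)
    obtain ⟨b, hb, h1, h2⟩ := blocked (hV.irr x hx.1) ha (hm x hx.1 hxW')
    have hxi : x ∈ insert x (W.erase y) := mem_insert_self _ _
    have hin : ∀ c ∈ W, c ≠ y → c ∈ insert x (W.erase y) := fun c hc hcy =>
      mem_insert_of_mem (mem_erase.2 ⟨hcy, hc⟩)
    rcases h2 with h2 | ⟨a, haW, h2, h3⟩
    · by_cases hb' : b = y
      · subst hb'
        exact hx.2.2 ⟨h2, h1⟩
      · exact hac.1 x hxi b (hin b hb hb') (Or.inl h2) (Or.inl h1)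
    · by_cases hb' : b = y
      · subst hb'
        have ha' : a ≠ b := fun h' => hV.irr b (hs hb) (h' ▸ h3)
        exact hac.1 x hxi a (hin a haW ha') (Or.inl h2) (Or.inr ⟨h3, h1⟩)
      · by_cases ha' : a = y
        · subst ha'
          exact hac.1 x hxi b (hin b hb hb') (Or.inr ⟨h2, h3⟩) (Or.inl h1)
        · exact hac.2 x hxi a (hin a haW ha') b (hin b hb hb') (Or.inl h2) (Or.inl h3) (Or.inl h1)

theorem cnt_branch {r : α → α → Prop} {V : Finset α} (hV : SC r V) (X : α → Prop) (y : α) :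
    cnt r V X ≤ cnt (rc r y) (Vc r V y) X + cnt r V fun x => X x ∨ x = y := by
  classical
  unfold cnt
  rw [← card_filter_add_card_filter_not (s := {W ∈ V.powerset | MA r V W ∧ ∀ x ∈ W, ¬ X x})
    (fun W => y ∈ W)]
  refine add_le_add ?_ ?_
  · refine card_le_card_of_injOn (fun W => W.erase y) (fun W hW => ?_) fun W hW W' hW' h => ?_
    · simp only [coe_filter, mem_filter, mem_powerset, Set.mem_ofPred_eq] at hW ⊢
      have := hW.1.2.1.con hV hW.2
      exact ⟨this.1, this, fun x hx => hW.1.2.2 x (mem_of_mem_erase hx)⟩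
    · simp only [coe_filter, mem_filter, mem_powerset, Set.mem_ofPred_eq] at hW hW'
      rw [← insert_erase hW.2, ← insert_erase hW'.2]
      exact congrArg _ h
  · refine card_le_card fun W hW => ?_
    simp only [mem_filter, mem_powerset] at hW ⊢
    refine ⟨hW.1.1, hW.1.2.1, fun x hx h => ?_⟩
    rcases h with h | rfl
    · exact hW.1.2.2 x hx h
    · exact hW.2 hx

theorem cnt_eq_zero {r : α → α → Prop} {V : Finset α} {X : α → Prop}
    (h : ∀ W, MA r V W → (∀ x ∈ W, ¬ X x) → False) : cnt r V X = 0 := by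
  classical
  unfold cnt
  rw [card_eq_zero, filter_eq_empty_iff]
  exact fun W _ hW => h W hW.1 hW.2

end Pool.Agent.MP_75ef89_co
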