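import Pool.Agent.MP_75ef89_co.Bits
import Pool.Agent.MP_75ef89_co.Graph

/-! Soundness of the inner (include / exclude) part of the checker. -/

namespace Pool.Agent.MP_75ef89_co

open Finset

variable {α : Type} [DecidableEq α]

/-- The fixed data: names `e 0, …, e (k-1)` and the set `R` of unnamed vertices. -/
structure Names (n k : ℕ) (e : ℕ → α) (R : Finset α) : Prop where
  le : k ≤ 15
  inj : ∀ i < k, ∀ j < k, e i = e j → i = j
  card : #R + k ≤ n

structure Hold (k : ℕ) (e : ℕ → α) (R : Finset α) (r : α → α → Prop) (V : Finset α)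
    (Y T P Q pres cl dom U : ℕ) : Prop where
  sc : SC r V
  cov : ∀ z ∈ V, z ∈ R ∨ ∃ i < k, e i = z
  hY : ∀ i < k, ∀ j < k, e i ∈ V → e j ∈ V → Y.testBit (16 * i + j) = true → r (e i) (e j)
  hT : ∀ i < k, ∀ j < k, e i ∈ V → e j ∈ V → T.testBit (16 * i + j) = true → r (e j) (e i)
  hP : ∀ i < k, ∀ j < k, e i ∈ V → e j ∈ V → r (e i) (e j) → P.testBit (16 * i + j) = true
  hQ : ∀ i < k, ∀ j < k, e i ∈ V → e j ∈ V → r (e j) (e i) → Q.testBit (16 * i + j) = true
  hpres : ∀ i, pres.testBit i = true → i < k ∧ e i ∈ V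
  hcl : ∀ i < k, cl.testBit i = true → e i ∈ V → ∀ z ∈ V, z ∈ R → ¬ r z (e i)
  hdom : ∀ i < k, dom.testBit i = true → e i ∈ V → ∀ z ∈ V, z ∈ R → r (e i) z
  hU : ∀ i, U.testBit i = true → i < k

/-- The named vertices that are no longer undecided. -/
def XU (k : ℕ) (e : ℕ → α) (U : ℕ) (z : α) : Prop := ∃ i < k, e i = z ∧ U.testBit i = false

variable {n k : ℕ} {e : ℕ → α} {R : Finset α} {r : α → α → Prop} {V : Finset α}
  {Y T P Q pres cl dom U : ℕ}

theorem Hold.con (hN : Names n k e R) (h : Hold k e R r V Y T P Q pres cl dom U) {y : ℕ}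
    (hy : y < k) (hyV : e y ∈ V) :
    Hold k e R (rc r (e y)) (Vc r V (e y))
      (Nat.lor Y (Nat.mul (col Y y) (row Y y))) (Nat.lor T (Nat.mul (col T y) (row T y)))
      (Nat.lor P (Nat.mul (dif (col P y) (col T y)) (dif (row P y) (row T y))))
      (Nat.lor Q (Nat.mul (dif (col Q y) (col Y y)) (dif (row Q y) (row Y y))))
      (dif pres (Nat.lor (Nat.land (row P y) (row Q y)) (bit y)))
      (bif tb dom y then cl else dif cl (dif (row P y) (row T y)))
      (bif tb dom y then Nat.lor dom (row T y) else dom)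
      (dif U (Nat.lor (Nat.land (row Y y) (row T y)) (bit y))) := by
  have hk := hN.le
  have hcol : ∀ M t, (col M y).testBit t = true → t % 16 = 0 := by
    intro M t ht
    rw [tb_col] at ht
    simp only [Bool.and_eq_true, decide_eq_true_eq] at ht
    exact ht.2.1
  have hrow : ∀ M t, (row M y).testBit t = true → t < 16 := by
    intro M t ht
    rw [tb_row] at ht
    simp only [Bool.and_eq_true, decide_eq_true_eq] at ht
    exact ht.2
  have hdcol : ∀ M M' t, (dif (col M y) M').testBit t = true → t % 16 = 0 := by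
    intro M M' t ht
    rw [tb_dif, Bool.and_eq_true] at ht
    exact hcol M t ht.1
  have hdrow : ∀ M M' t, (dif (row M y) M').testBit t = true → t < 16 := by
    intro M M' t ht
    rw [tb_dif, Bool.and_eq_true] at ht
    exact hrow M t ht.1
  have ecol : ∀ M : ℕ, ∀ i < k, (col M y).testBit (16 * i) = M.testBit (16 * i + y) := by
    intro M i hi
    have : 16 * i < 256 := by omega
    rw [tb_col, add_comm]
    simp [this]
  have erow : ∀ M : ℕ, ∀ j < k, (row M y).testBit j = M.testBit (16 * y + j) := by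
    intro M j hj
    have : j < 16 := by omega
    rw [tb_row]
    simp [this]
  refine ⟨h.sc.con _, fun z hz => h.cov z (mem_Vc.1 hz).1, ?_, ?_, ?_, ?_, ?_, ?_, ?_, ?_⟩
  · intro i hi j hj h1 h2 hb
    rw [mem_Vc] at h1 h2
    rw [tb_lor, tb_outer (hcol _) (hrow _) i (by omega), ecol _ i hi, erow _ j hj] at hb
    simp only [Bool.or_eq_true, Bool.and_eq_true] at hb
    exact hb.imp (h.hY i hi j hj h1.1 h2.1) fun hb =>
      ⟨h.hY i hi y hy h1.1 hyV hb.1, h.hY y hy j hj hyV h2.1 hb.2⟩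
  · intro i hi j hj h1 h2 hb
    rw [mem_Vc] at h1 h2
    rw [tb_lor, tb_outer (hcol _) (hrow _) i (by omega), ecol _ i hi, erow _ j hj] at hb
    simp only [Bool.or_eq_true, Bool.and_eq_true] at hb
    exact hb.imp (h.hT i hi j hj h1.1 h2.1) fun hb =>
      ⟨h.hT y hy j hj hyV h2.1 hb.2, h.hT i hi y hy h1.1 hyV hb.1⟩
  · intro i hi j hj h1 h2 hr
    rw [mem_Vc] at h1 h2
    rw [tb_lor, tb_outer (hdcol _ _) (hdrow _ _) i (by omega), tb_dif, tb_dif, ecol _ i hi,
      ecol _ i hi, erow _ j hj, erow _ j hj]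
    simp only [Bool.or_eq_true, Bool.and_eq_true, Bool.not_eq_true', ← Bool.not_eq_true]
    exact hr.imp (h.hP i hi j hj h1.1 h2.1) fun hr =>
      ⟨⟨h.hP i hi y hy h1.1 hyV hr.1, fun hb => h1.2.2 ⟨hr.1, h.hT i hi y hy h1.1 hyV hb⟩⟩,
        h.hP y hy j hj hyV h2.1 hr.2, fun hb => h2.2.2 ⟨h.hT y hy j hj hyV h2.1 hb, hr.2⟩⟩
  · intro i hi j hj h1 h2 hr
    rw [mem_Vc] at h1 h2
    rw [tb_lor, tb_outer (hdcol _ _) (hdrow _ _) i (by omega), tb_dif, tb_dif, ecol _ i hi,
      ecol _ i hi, erow _ j hj, erow _ j hj]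
    simp only [Bool.or_eq_true, Bool.and_eq_true, Bool.not_eq_true', ← Bool.not_eq_true]
    exact hr.imp (h.hQ i hi j hj h1.1 h2.1) fun hr =>
      ⟨⟨h.hQ i hi y hy h1.1 hyV hr.2, fun hb => h1.2.2 ⟨h.hY i hi y hy h1.1 hyV hb, hr.2⟩⟩,
        h.hQ y hy j hj hyV h2.1 hr.1, fun hb => h2.2.2 ⟨hr.1, h.hY y hy j hj hyV h2.1 hb⟩⟩
  · intro i hb
    rw [tb_dif, tb_lor, tb_land, tb_bit, Bool.and_eq_true] at hb
    obtain ⟨hi, hiV⟩ := h.hpres i hb.1
    rw [erow _ i hi, erow _ i hi] at hb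
    refine ⟨hi, mem_Vc.2 ⟨hiV, fun he => ?_, fun hr => ?_⟩⟩
    · have := hN.inj i hi y hy he
      simp [this] at hb
    · simp [h.hP y hy i hi hyV hiV hr.2, h.hQ y hy i hi hyV hiV hr.1] at hb
  · intro i hi hb h1 z hz hzR hr
    rw [mem_Vc] at h1 hz
    rw [tb_eq] at hb
    cases hd : dom.testBit y
    · rw [hd, cond_false, tb_dif, tb_dif, erow _ i hi, erow _ i hi, Bool.and_eq_true] at hb
      rcases hr with hr | hr
      · exact h.hcl i hi hb.1 h1.1 z hz.1 hzR hr
      · have h3 := hb.2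
        rw [h.hP y hy i hi hyV h1.1 hr.2] at h3
        exact h1.2.2 ⟨h.hT y hy i hi hyV h1.1 (by simpa using h3), hr.2⟩
    · rw [hd, cond_true] at hb
      rcases hr with hr | hr
      · exact h.hcl i hi hb h1.1 z hz.1 hzR hr
      · exact hz.2.2 ⟨hr.1, h.hdom y hy hd hyV z hz.1 hzR⟩
  · intro i hi hb h1 z hz hzR
    rw [mem_Vc] at h1 hz
    rw [tb_eq] at hb
    cases hd : dom.testBit y
    · rw [hd, cond_false] at hb
      exact Or.inl (h.hdom i hi hb h1.1 z hz.1 hzR)
    · rw [hd, cond_true, tb_lor, erow _ i hi, Bool.or_eq_true] at hb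
      rcases hb with hb | hb
      · exact Or.inl (h.hdom i hi hb h1.1 z hz.1 hzR)
      · exact Or.inr ⟨h.hT y hy i hi hyV h1.1 hb, h.hdom y hy hd hyV z hz.1 hzR⟩
  · intro i hb
    rw [tb_dif, Bool.and_eq_true] at hb
    exact h.hU i hb.1

theorem Hold.cnt_con (hN : Names n k e R) (h : Hold k e R r V Y T P Q pres cl dom U) {y : ℕ}
    (hy : y < k) (hyV : e y ∈ V) :
    cnt (rc r (e y)) (Vc r V (e y)) (XU k e U) ≤ cnt (rc r (e y)) (Vc r V (e y))
      (XU k e (dif U (Nat.lor (Nat.land (row Y y) (row T y)) (bit y)))) := by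
  refine cnt_mono ?_
  rintro x hx ⟨i, hi, rfl, hb⟩
  refine ⟨i, hi, rfl, ?_⟩
  rw [mem_Vc] at hx
  have h16 : i < 16 := by have := hN.le; omega
  rw [tb_dif, tb_lor, tb_land, tb_row, tb_row, tb_bit] at hb
  by_contra hc
  simp only [Bool.not_eq_false] at hc
  simp only [hc, h16, decide_true, Bool.and_true, Bool.true_and, Bool.not_eq_false',
    Bool.or_eq_true, Bool.and_eq_true, decide_eq_true_eq] at hb
  rcases hb with hb | hb
  · exact hx.2.2 ⟨h.hT y hy i hi hyV hx.1 hb.2, h.hY y hy i hi hyV hx.1 hb.1⟩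
  · exact hx.2.1 (hb ▸ rfl)

omit [DecidableEq α] in
theorem Hold.excl (h : Hold k e R r V Y T P Q pres cl dom U) {y : ℕ} (hy : U.testBit y = true) :
    Hold k e R r V Y T P Q pres cl dom (Nat.xor U (bit y)) :=
  { h with
    hU := fun i hb => by
      rw [tb_xor, tb_bit] at hb
      by_cases hi : y = i
      · exact hi ▸ h.hU y hy
      · exact h.hU i (by simpa [hi] using hb) }

omit [DecidableEq α] in
theorem Hold.setPres (h : Hold k e R r V Y T P Q pres cl dom U) {y : ℕ} (hy : y < k)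
    (hyV : e y ∈ V) : Hold k e R r V Y T P Q (Nat.lor pres (bit y)) cl dom U :=
  { h with
    hpres := fun i hb => by
      rw [tb_lor, tb_bit, Bool.or_eq_true, decide_eq_true_eq] at hb
      rcases hb with hb | rfl
      · exact h.hpres i hb
      · exact ⟨hy, hyV⟩ }

omit [DecidableEq α] in
theorem XU_excl {y : ℕ} {x : α} (hx : XU k e (Nat.xor U (bit y)) x) : XU k e U x ∨ x = e y := by
  obtain ⟨i, hi, rfl, hb⟩ := hx
  rw [tb_xor, tb_bit] at hb
  by_cases h : y = i
  · exact Or.inr (h ▸ rfl)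
  · exact Or.inl ⟨i, hi, rfl, by simpa [h] using hb⟩

theorem Hold.prune (hN : Names n k e R) (h : Hold k e R r V Y T P Q pres cl dom U) {x : ℕ}
    (hp : prune Y P Q pres cl dom U x = true) : cnt r V (XU k e U) = 0 := by
  have hk := hN.le
  simp only [MP_75ef89_co.prune, Bool.and_eq_true, tb_eq, tb_land, tb_dif, Bool.not_eq_true',
    Nat.beq_eq] at hp
  obtain ⟨⟨⟨h1, h2⟩, h3⟩, ⟨h4, h5⟩, h6⟩ := hp
  obtain ⟨hx, hxV⟩ := h.hpres x h1
  refine cnt_eq_zero fun W hW hX => ?_
  have hxW : e x ∉ W := fun h' => hX _ h' ⟨x, hx, rfl, h2⟩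
  have named : ∀ b ∈ W, b ∉ R → ∃ i < k, e i = b ∧ U.testBit i = true := by
    intro b hb hbR
    obtain ⟨i, hi, rfl⟩ := (h.cov b (hW.1 hb)).resolve_left hbR
    refine ⟨i, hi, rfl, ?_⟩
    by_contra hc
    exact hX _ hb ⟨i, hi, rfl, by simpa using hc⟩
  obtain ⟨b, hb, hbx, hcyc⟩ := blocked (h.sc.irr _ hxV) hW.2.1 (hW.2.2 _ hxV hxW)
  obtain ⟨i, hi, rfl, hiU⟩ := named b hb fun hbR => h.hcl x hx h3 hxV b (hW.1 hb) hbR hbx
  have hB : (Nat.land U (row Q x)).testBit i = true := by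
    have : i < 16 := by omega
    rw [tb_land, tb_row, hiU, h.hQ x hx i hi hxV (hW.1 hb) hbx]
    simp [this]
  have hA : ∀ j < k, e j ∈ V → U.testBit j = true → r (e x) (e j) →
      (Nat.land U (row P x)).testBit j = true := by
    intro j hj hjV hjU hr
    have : j < 16 := by omega
    rw [tb_land, tb_row, hjU, h.hP x hx j hj hxV hjV hr]
    simp [this]
  rcases hcyc with hxb | ⟨a, ha, hxa, hab⟩
  · have := tb_land (Nat.land U (row Q x)) (Nat.land U (row P x)) i
    rw [h4, hB, hA i hi (hW.1 hb) hiU hxb] at this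
    simp at this
  · by_cases haR : a ∈ R
    · exact hW.2.1.1 a ha _ hb hab (h.hdom i hi (sub_imp h5 hB) (hW.1 hb) a (hW.1 ha) haR)
    · obtain ⟨j, hj, rfl, hjU⟩ := named a ha haR
      refine hW.2.1.1 _ ha _ hb hab (h.hY i hi j hj (hW.1 hb) (hW.1 ha) (sub_imp h6 ?_))
      have hB15 : ∀ t, (Nat.land U (row Q x)).testBit t = true → t < 15 := by
        intro t ht
        rw [tb_land, Bool.and_eq_true] at ht
        have := h.hU t ht.1
        omega
      rw [tb_land, tb_outer _ _ i (by omega), tb_spr hB15, h.hQ i hi j hj (hW.1 hb) (hW.1 ha) hab,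
        hA j hj (hW.1 ha) hjU hxa, show 16 * i / 16 = i by omega, hB]
      · simp
      · intro t ht
        rw [tb_spr hB15, Bool.and_eq_true, decide_eq_true_eq] at ht
        exact ht.1
      · intro t ht
        rw [tb_land, Bool.and_eq_true] at ht
        have := h.hU t ht.1
        omega

theorem card_image_le_pc {x : ℕ} (hx : ∀ t, x.testBit t = true → t < 16) {A : Finset α}
    (hA : ∀ z ∈ A, ∃ i, x.testBit i = true ∧ e i = z) : #A ≤ pc x := by
  refine le_trans (card_le_card (t := ({i ∈ range 16 | x.testBit i} : Finset ℕ).image e)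
    fun z hz => ?_) (card_image_le.trans (card_bits_le hx))
  obtain ⟨i, hi, rfl⟩ := hA z hz
  exact mem_image.2 ⟨i, mem_filter.2 ⟨mem_range.2 (hx i hi), hi⟩, rfl⟩

/-- What the weight table has to satisfy. -/
structure Table (α : Type) [DecidableEq α] (n w : ℕ) (Z : ℝ) : Prop where
  nonneg : 0 ≤ Z
  zero : ∀ d ≤ 3, wt w 0 d = 4294967295
  leaf : ∀ (r : α → α → Prop) (V : Finset α), SC r V → ∀ m d, 1 ≤ m → m ≤ 15 → d ≤ 3 →
    #V + m ≤ n → (d = 3 ∨ #V + m + 1 ≤ n ∨ ∃ v ∈ V, indeg r V v ≤ d) →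
    (cnt r V fun _ => False : ℝ) ≤ wt w m d * Z

theorem Hold.leaf {w : ℕ} {Z : ℝ} (hT : Table α n w Z) (hN : Names n k e R)
    (h : Hold k e R r V Y T P Q pres cl dom U) {d : ℕ} (hd : d ≤ 3)
    (hy : d = 3 ∨ ∃ y, U.testBit y = true ∧ cl.testBit y = true ∧
      pc (dif (Nat.land U (row Q y)) (bit y)) ≤ d)
    (hw : wt w (Nat.sub k (pc U)) d < 4294967295) :
    (cnt r V (XU k e U) : ℝ) ≤ wt w (Nat.sub k (pc U)) d * Z := by
  classical
  have hk := hN.le
  have hm : 1 ≤ k - pc U := by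
    by_contra hc
    rw [show Nat.sub k (pc U) = 0 by change k - pc U = 0; omega, hT.zero d hd] at hw
    exact lt_irrefl _ hw
  set V0 : Finset α := {x ∈ V | ¬ XU k e U x} with hV0
  have hmem : ∀ x, x ∈ V0 ↔ x ∈ V ∧ ¬ XU k e U x := fun x => mem_filter
  have hU16 : ∀ t, U.testBit t = true → t < 16 := fun t ht => by have := h.hU t ht; omega
  have named : ∀ z ∈ V0, z ∉ R → ∃ i < k, U.testBit i = true ∧ e i = z := by
    intro z hz hzR
    rw [hmem] at hz
    obtain ⟨i, hi, rfl⟩ := (h.cov z hz.1).resolve_left hzR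
    refine ⟨i, hi, ?_, rfl⟩
    by_contra hc
    exact hz.2 ⟨i, hi, rfl, by simpa using hc⟩
  have hcard : ∀ A : Finset α, (∀ z ∈ A, z ∉ R → ∃ i < k, U.testBit i = true ∧ e i = z) →
      #A + (k - pc U) ≤ n := by
    intro A hA
    have h1 : #(A \ R) ≤ pc U := card_image_le_pc (e := e) hU16 fun z hz => by
      obtain ⟨i, _, hi⟩ := hA z (mem_sdiff.1 hz).1 (mem_sdiff.1 hz).2
      exact ⟨i, hi⟩
    have h2 : #A ≤ #(A \ R) + #R := card_le_card_sdiff_add_card
    have := hN.card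
    omega
  refine le_trans (Nat.cast_le.2 (cnt_del hmem)) (hT.leaf r V0 (h.sc.mono (filter_subset _ _))
    (k - pc U) d hm (by omega) hd (hcard V0 named) ?_)
  rcases hy with hy | ⟨y, hyU, hycl, hpc⟩
  · exact Or.inl hy
  right
  have hyk := h.hU y hyU
  by_cases hyV : e y ∈ V0
  · refine Or.inr ⟨e y, hyV, le_trans (card_image_le_pc (e := e) ?_ ?_) hpc⟩
    · intro t ht
      rw [tb_dif, tb_land, Bool.and_eq_true, Bool.and_eq_true] at ht
      exact hU16 t ht.1.1
    · intro z hz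
      rw [mem_filter] at hz
      have hzV := ((hmem z).1 hz.1).1
      have hyV' := ((hmem _).1 hyV).1
      obtain ⟨i, hi, hiU, rfl⟩ := named z hz.1 fun hzR => h.hcl y hyk hycl hyV' z hzV hzR hz.2
      refine ⟨i, ?_, rfl⟩
      have h16 : i < 16 := by omega
      have hne : y ≠ i := fun h' => h.sc.irr _ hzV (h' ▸ hz.2)
      rw [tb_dif, tb_land, tb_row, tb_bit, hiU, h.hQ y hyk i hi hyV' hzV hz.2]
      simp [h16, hne]
  · left
    have := hcard (insert (e y) V0) fun z hz hzR => by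
      rcases mem_insert.1 hz with rfl | hz
      · exact ⟨y, hyk, hyU, rfl⟩
      · exact named z hz hzR
    rw [card_insert_of_notMem hyV] at this
    omega

theorem lo_lt (x : ℕ) : lo x < 4294967296 := Nat.lt_succ_of_le Nat.and_le_right

theorem pay_spec {s b c : ℕ} (hb : b < 4294967296) (h : pay s b c ≠ 0) :
    c ≤ b ∧ lo (pay s b c) = b - c := by
  unfold pay at h ⊢
  cases hc : Nat.ble c b
  · simp [hc] at h
  · rw [cond_true]
    exact ⟨Nat.le_of_ble_eq_true hc, lo_pk (by change b - c < _; omega)⟩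

theorem ne_of_cond {x y : ℕ} (h : (bif Nat.beq x 0 then 0 else y) ≠ 0) :
    x ≠ 0 ∧ (bif Nat.beq x 0 then 0 else y) = y := by
  cases hx : Nat.beq x 0
  · exact ⟨Nat.ne_of_beq_eq_false hx, rfl⟩
  · simp [hx] at h

theorem of_cond {c : Bool} {y : ℕ} (h : (bif c then y else 0) ≠ 0) :
    c = true ∧ (bif c then y else 0) = y := by
  cases c
  · simp at h
  · exact ⟨rfl, rfl⟩

theorem min_cond (a b : ℕ) : (bif Nat.ble a b then a else b) = min a b := by
  cases h : Nat.ble a b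
  · have : ¬ a ≤ b := fun h' => by simp [Nat.ble_eq_true_of_le h'] at h
    simp only [cond_false]
    omega
  · have := Nat.le_of_ble_eq_true h
    simp only [cond_true]
    omega

theorem ev_le (w k : ℕ) : ∀ f Y T P Q pres cl dom U s b, b < 4294967296 →
    ev w k f Y T P Q pres cl dom U s b ≠ 0 → lo (ev w k f Y T P Q pres cl dom U s b) ≤ b
  | 0, _, _, _, _, _, _, _, _, _, _, _, h => absurd (by rw [ev]) h
  | f + 1, Y, T, P, Q, pres, cl, dom, U, s, b, hb, h => by
    rw [ev] at h ⊢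
    beta_reduce at h ⊢
    cases h0 : Nat.beq (Nat.land s 7) 0
    swap
    · rw [h0, cond_true] at h
      rw [cond_true]
      obtain ⟨-, e1⟩ := of_cond h
      rw [e1] at h ⊢
      obtain ⟨h1, e2⟩ := ne_of_cond h
      rw [e2] at h ⊢
      exact (ev_le w k f _ _ _ _ _ _ _ _ _ _ (lo_lt _) h).trans
        (ev_le w k f _ _ _ _ _ _ _ _ _ _ hb h1)
    rw [h0, cond_false] at h
    rw [cond_false]
    cases h3 : Nat.beq (Nat.land s 7) 3
    swap
    · rw [h3, cond_true] at h
      rw [cond_true, (pay_spec hb h).2]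
      omega
    rw [h3, cond_false] at h
    rw [cond_false]
    cases h4 : Nat.beq (Nat.land s 7) 4
    swap
    · rw [h4, cond_true] at h
      rw [cond_true]
      obtain ⟨-, e1⟩ := of_cond h
      rw [e1] at h ⊢
      rw [(pay_spec hb h).2]
      omega
    rw [h4, cond_false] at h
    rw [cond_false]
    cases h2 : Nat.beq (Nat.land s 7) 2
    swap
    · rw [h2, cond_true] at h
      rw [cond_true, (of_cond h).2, lo_pk hb]
    rw [h2, cond_false] at h
    rw [cond_false]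
    obtain ⟨-, e1⟩ := of_cond h
    rw [e1] at h ⊢
    obtain ⟨h5, e2⟩ := ne_of_cond h
    rw [e2] at h ⊢
    obtain ⟨-, e3⟩ := ne_of_cond h
    rw [e3] at h ⊢
    obtain ⟨-, e4⟩ := ne_of_cond h
    rw [e4, min_cond, lo_pk ((min_le_left _ _).trans_lt (lo_lt _))]
    exact (min_le_left _ _).trans (ev_le w k f _ _ _ _ _ _ _ _ _ _ hb h5)

theorem ev_sound {w : ℕ} {Z : ℝ} (hT : Table α n w Z) (hN : Names n k e R) :
    ∀ (f : ℕ) (r : α → α → Prop) (V : Finset α) (Y T P Q pres cl dom U s b : ℕ),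
      Hold k e R r V Y T P Q pres cl dom U → b < 4294967295 →
      ev w k f Y T P Q pres cl dom U s b ≠ 0 →
      (cnt r V (XU k e U) : ℝ) + lo (ev w k f Y T P Q pres cl dom U s b) * Z ≤ b * Z
  | 0, _, _, _, _, _, _, _, _, _, _, _, _, _, _, h => absurd (by rw [ev]) h
  | f + 1, r, V, Y, T, P, Q, pres, cl, dom, U, s, b, hH, hb, h => by
    have hZ := hT.nonneg
    have hb' : b < 4294967296 := by omega
    have br : ∀ y s1 pres', U.testBit y = true → e y ∈ V →
        Hold k e R r V Y T P Q pres' cl dom U →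
        con (ev w k f) Y T P Q pres cl dom U y s1 b ≠ 0 →
        ev w k f Y T P Q pres' cl dom (Nat.xor U (bit y))
          (hi (con (ev w k f) Y T P Q pres cl dom U y s1 b))
          (lo (con (ev w k f) Y T P Q pres cl dom U y s1 b)) ≠ 0 →
        (cnt r V (XU k e U) : ℝ) + lo (ev w k f Y T P Q pres' cl dom (Nat.xor U (bit y))
          (hi (con (ev w k f) Y T P Q pres cl dom U y s1 b))
          (lo (con (ev w k f) Y T P Q pres cl dom U y s1 b))) * Z ≤ b * Z := by
      intro y s1 pres' hyU hyV hH' h1 h2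
      have hy := hH.hU y hyU
      have l1 : lo (con (ev w k f) Y T P Q pres cl dom U y s1 b) ≤ b :=
        ev_le w k f _ _ _ _ _ _ _ _ _ _ hb' h1
      have a1 := ev_sound hT hN f _ _ _ _ _ _ _ _ _ _ s1 b (hH.con hN hy hyV) hb h1
      have a2 := ev_sound hT hN f _ _ _ _ _ _ _ _ _ _ _ _ (hH'.excl hyU) (l1.trans_lt hb) h2
      have a3 := (cnt_branch hH.sc (XU k e U) (e y)).trans (add_le_add (hH.cnt_con hN hy hyV)
        (cnt_mono (X' := XU k e (Nat.xor U (bit y))) fun x _ hx => XU_excl hx))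
      have a4 := (Nat.cast_le (α := ℝ)).2 a3
      push_cast at a4
      change _ + (lo (con (ev w k f) Y T P Q pres cl dom U y s1 b) : ℝ) * Z ≤ _ at a1
      linarith
    have ab : ∀ y, e y ∉ V → cnt r V (XU k e U) ≤ cnt r V (XU k e (Nat.xor U (bit y))) :=
      fun y hy => cnt_mono fun x hxV hx => (XU_excl hx).resolve_right fun h' => hy (h' ▸ hxV)
    have py : ∀ s1 c, pay s1 b c ≠ 0 → (c < 4294967295 → (cnt r V (XU k e U) : ℝ) ≤ c * Z) →
        (cnt r V (XU k e U) : ℝ) + lo (pay s1 b c) * Z ≤ b * Z := by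
      intro s1 c h1 h2
      obtain ⟨h3, h4⟩ := pay_spec hb' h1
      rw [h4, Nat.cast_sub h3]
      linarith [h2 (by omega)]
    rw [ev] at h ⊢
    beta_reduce at h ⊢
    cases h0 : Nat.beq (Nat.land s 7) 0
    swap
    · rw [h0, cond_true] at h
      rw [cond_true]
      obtain ⟨hy, e1⟩ := of_cond h
      rw [e1] at h ⊢
      obtain ⟨h1, e2⟩ := ne_of_cond h
      rw [e2] at h ⊢
      rw [tb_eq] at hy
      by_cases hyV : e (nib s 3) ∈ V
      · exact br _ _ _ hy hyV hH h1 h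
      · have l1 : lo (con (ev w k f) Y T P Q pres cl dom U (nib s 3) (Nat.shiftRight s 7) b) ≤ b :=
          ev_le w k f _ _ _ _ _ _ _ _ _ _ hb' h1
        have a2 := ev_sound hT hN f _ _ _ _ _ _ _ _ _ _ _ _ (hH.excl hy) (l1.trans_lt hb) h
        have a3 := (Nat.cast_le (α := ℝ)).2 (ab _ hyV)
        have a4 := mul_le_mul_of_nonneg_right ((Nat.cast_le (α := ℝ)).2 l1) hZ
        linarith
    rw [h0, cond_false] at h
    rw [cond_false]
    cases h3 : Nat.beq (Nat.land s 7) 3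
    swap
    · rw [h3, cond_true] at h
      rw [cond_true]
      exact py _ _ h (hH.leaf hT hN le_rfl (Or.inl rfl))
    rw [h3, cond_false] at h
    rw [cond_false]
    cases h4 : Nat.beq (Nat.land s 7) 4
    swap
    · rw [h4, cond_true] at h
      rw [cond_true]
      obtain ⟨hc, e1⟩ := of_cond h
      rw [e1] at h ⊢
      simp only [Bool.and_eq_true, tb_eq, tb_land, Nat.blt_eq] at hc
      exact py _ _ h (hH.leaf hT hN hc.2.le (Or.inr ⟨_, hc.1.1, hc.1.2, le_rfl⟩))
    rw [h4, cond_false] at h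
    rw [cond_false]
    cases h2 : Nat.beq (Nat.land s 7) 2
    swap
    · rw [h2, cond_true] at h
      rw [cond_true, (of_cond h).2, lo_pk hb', hH.prune hN (of_cond h).1]
      simp
    rw [h2, cond_false] at h
    rw [cond_false]
    obtain ⟨hy, e1⟩ := of_cond h
    rw [e1] at h ⊢
    obtain ⟨h5, e2⟩ := ne_of_cond h
    rw [e2] at h ⊢
    obtain ⟨h6, e3⟩ := ne_of_cond h
    rw [e3] at h ⊢
    obtain ⟨h7, e4⟩ := ne_of_cond h
    rw [e4, min_cond, lo_pk ((min_le_left _ _).trans_lt (lo_lt _))]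
    rw [tb_eq] at hy
    by_cases hyV : e (nib s 3) ∈ V
    · refine le_trans (add_le_add le_rfl (mul_le_mul_of_nonneg_right
        (Nat.cast_le.2 (min_le_right _ _)) hZ)) ?_
      exact br _ _ _ hy hyV (hH.setPres (hH.hU _ hy) hyV) h6 h7
    · refine le_trans (add_le_add (Nat.cast_le.2 (ab _ hyV)) (mul_le_mul_of_nonneg_right
        (Nat.cast_le.2 (min_le_left _ _)) hZ)) ?_
      exact ev_sound hT hN f _ _ _ _ _ _ _ _ _ _ _ _ (hH.excl hy) hb h5

end Pool.Agent.MP_75ef89_co
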