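import Mathlib.Tactic.Common
import Pool.Agent.MP_75ef89_co.Chk

/-! The checker again, written with bare recursors so that the kernel evaluates it quickly. -/

namespace Pool.Agent.MP_75ef89_co

noncomputable def conF (g : ℕ → ℕ → ℕ → ℕ → ℕ → ℕ → ℕ → ℕ → ℕ → ℕ → ℕ) (Y T P Q pres cl dom U y s b
    : ℕ) : ℕ :=
  ((fun (rY : ℕ) (rT : ℕ) (rP : ℕ) (rQ : ℕ) (cY : ℕ) (cT : ℕ) => ((fun (Y1 : ℕ) (T1 : ℕ) (P1 : ℕ)
      (Q1 : ℕ) (pres1 : ℕ) (cl1 : ℕ) (dom1 : ℕ) (U1 : ℕ) => g Y1 T1 P1 Q1 pres1 cl1 dom1 U1 s b)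
      (Nat.lor Y (Nat.mul cY rY)) (Nat.lor T (Nat.mul cT rT)) (Nat.lor P (Nat.mul (Nat.xor (Nat.land
      (Nat.shiftRight P y) (nat_lit
      0x1000100010001000100010001000100010001000100010001000100010001)) (Nat.land (Nat.land
      (Nat.shiftRight P y) (nat_lit
      0x1000100010001000100010001000100010001000100010001000100010001)) cT)) (Nat.xor rP (Nat.land
      rP rT)))) (Nat.lor Q (Nat.mul (Nat.xor (Nat.land (Nat.shiftRight Q y) (nat_lit
      0x1000100010001000100010001000100010001000100010001000100010001)) (Nat.land (Nat.land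
      (Nat.shiftRight Q y) (nat_lit
      0x1000100010001000100010001000100010001000100010001000100010001)) cY)) (Nat.xor rQ (Nat.land
      rQ rY)))) (Nat.xor pres (Nat.land pres (Nat.lor (Nat.land rP rQ) (Nat.shiftLeft (nat_lit 1)
      y)))) (@Bool.rec (fun _ => ℕ) (Nat.xor cl (Nat.land cl (Nat.xor rP (Nat.land rP rT)))) cl
      (Nat.beq (Nat.land (Nat.shiftRight dom y) (nat_lit 1)) (nat_lit 1))) (@Bool.rec (fun _ => ℕ)
      dom (Nat.lor dom rT) (Nat.beq (Nat.land (Nat.shiftRight dom y) (nat_lit 1)) (nat_lit 1)))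
      (Nat.xor U (Nat.land U (Nat.lor (Nat.land rY rT) (Nat.shiftLeft (nat_lit 1) y)))))) (Nat.land
      (Nat.shiftRight Y (Nat.mul (nat_lit 16) y)) (nat_lit 65535)) (Nat.land (Nat.shiftRight T
      (Nat.mul (nat_lit 16) y)) (nat_lit 65535)) (Nat.land (Nat.shiftRight P (Nat.mul (nat_lit 16)
      y)) (nat_lit 65535)) (Nat.land (Nat.shiftRight Q (Nat.mul (nat_lit 16) y)) (nat_lit 65535))
      (Nat.land (Nat.shiftRight Y y) (nat_lit
      0x1000100010001000100010001000100010001000100010001000100010001)) (Nat.land (Nat.shiftRight T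
      y) (nat_lit 0x1000100010001000100010001000100010001000100010001000100010001)))

noncomputable def pruneF (Y P Q pres cl dom U x : ℕ) : Bool :=
  (@Bool.rec (fun _ => Bool) false ((fun B A : ℕ => (@Bool.rec (fun _ => Bool) false (Nat.beq
      (Nat.land (Nat.land (Nat.mul (Nat.land (Nat.mul B (nat_lit
      0x200040008001000200040008001000200040008001000200040008001)) (nat_lit
      0x1000100010001000100010001000100010001000100010001000100010001)) A) Q) Y) (Nat.land (Nat.mul
      (Nat.land (Nat.mul B (nat_lit 0x200040008001000200040008001000200040008001000200040008001))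
      (nat_lit 0x1000100010001000100010001000100010001000100010001000100010001)) A) Q)) (@Bool.rec
      (fun _ => Bool) false (Nat.beq (Nat.land B dom) B) (Nat.beq (Nat.land B A) (nat_lit 0)))))
      (Nat.land U (Nat.land (Nat.shiftRight Q (Nat.mul (nat_lit 16) x)) (nat_lit 65535))) (Nat.land
      U (Nat.land (Nat.shiftRight P (Nat.mul (nat_lit 16) x)) (nat_lit 65535)))) (Nat.beq (Nat.land
      (Nat.shiftRight (Nat.land (Nat.xor pres (Nat.land pres U)) cl) x) (nat_lit 1)) (nat_lit 1)))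

noncomputable def brF (g : ℕ → ℕ → ℕ → ℕ → ℕ → ℕ → ℕ → ℕ → ℕ → ℕ → ℕ) (Y T P Q pres cl dom U y s b :
    ℕ) : ℕ :=
  (@Bool.rec (fun _ => ℕ) (nat_lit 0) ((fun r : ℕ => (@Bool.rec (fun _ => ℕ) ((fun (U1 : ℕ) (s1 : ℕ)
      (b1 : ℕ) => g Y T P Q pres cl dom U1 s1 b1) (Nat.xor U (Nat.shiftLeft (nat_lit 1) y))
      (Nat.shiftRight r (nat_lit 32)) (Nat.land r (nat_lit 4294967295))) (nat_lit 0) (Nat.beq r
      (nat_lit 0)))) (conF g Y T P Q pres cl dom U y s b)) (Nat.beq (Nat.land (Nat.shiftRight U y)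
      (nat_lit 1)) (nat_lit 1)))

noncomputable def brmF (g : ℕ → ℕ → ℕ → ℕ → ℕ → ℕ → ℕ → ℕ → ℕ → ℕ → ℕ) (Y T P Q pres cl dom U y s b
    : ℕ) : ℕ :=
  (@Bool.rec (fun _ => ℕ) (nat_lit 0) ((fun r0 : ℕ => (@Bool.rec (fun _ => ℕ) ((fun r1 : ℕ =>
      (@Bool.rec (fun _ => ℕ) ((fun r2 : ℕ => (@Bool.rec (fun _ => ℕ) (Nat.add (Nat.shiftLeft
      (Nat.shiftRight r2 (nat_lit 32)) (nat_lit 32)) (@Bool.rec (fun _ => ℕ) (Nat.land r2 (nat_lit
      4294967295)) (Nat.land r0 (nat_lit 4294967295)) (Nat.ble (Nat.land r0 (nat_lit 4294967295))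
      (Nat.land r2 (nat_lit 4294967295))))) (nat_lit 0) (Nat.beq r2 (nat_lit 0)))) (g Y T P Q
      (Nat.lor pres (Nat.shiftLeft (nat_lit 1) y)) cl dom (Nat.xor U (Nat.shiftLeft (nat_lit 1) y))
      (Nat.shiftRight r1 (nat_lit 32)) (Nat.land r1 (nat_lit 4294967295)))) (nat_lit 0) (Nat.beq r1
      (nat_lit 0)))) (conF g Y T P Q pres cl dom U y (Nat.shiftRight r0 (nat_lit 32)) b)) (nat_lit
      0) (Nat.beq r0 (nat_lit 0)))) (g Y T P Q pres cl dom (Nat.xor U (Nat.shiftLeft (nat_lit 1) y))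
      s b)) (Nat.beq (Nat.land (Nat.shiftRight U y) (nat_lit 1)) (nat_lit 1)))

noncomputable def lfF (w k U s b : ℕ) : ℕ :=
  ((fun c : ℕ => (@Bool.rec (fun _ => ℕ) (nat_lit 0) (Nat.add (Nat.shiftLeft (Nat.shiftRight s
      (nat_lit 3)) (nat_lit 32)) (Nat.sub b c)) (Nat.ble c b))) (Nat.land (Nat.shiftRight w (Nat.mul
      (nat_lit 32) (Nat.add (Nat.mul (nat_lit 4) (Nat.sub k (Nat.add (Nat.land (Nat.shiftRight
      (nat_lit
      0x8776766576656554766565546554544376656554655454436554544354434332766565546554544365545443544343326554544354434332544343324332322176656554655454436554544354434332655454435443433254434332433232216554544354434332544343324332322154434332433232214332322132212110)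
      (Nat.mul (nat_lit 4) (Nat.land U (nat_lit 255)))) (nat_lit 15)) (Nat.land (Nat.shiftRight
      (nat_lit
      0x8776766576656554766565546554544376656554655454436554544354434332766565546554544365545443544343326554544354434332544343324332322176656554655454436554544354434332655454435443433254434332433232216554544354434332544343324332322154434332433232214332322132212110)
      (Nat.mul (nat_lit 4) (Nat.shiftRight U (nat_lit 8)))) (nat_lit 15))))) (nat_lit 3)))) (nat_lit
      4294967295)))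

noncomputable def ldF (w k Q cl U y s b : ℕ) : ℕ :=
  ((fun d : ℕ => (@Bool.rec (fun _ => ℕ) (nat_lit 0) ((fun c : ℕ => (@Bool.rec (fun _ => ℕ) (nat_lit
      0) (Nat.add (Nat.shiftLeft s (nat_lit 32)) (Nat.sub b c)) (Nat.ble c b))) (Nat.land
      (Nat.shiftRight w (Nat.mul (nat_lit 32) (Nat.add (Nat.mul (nat_lit 4) (Nat.sub k (Nat.add
      (Nat.land (Nat.shiftRight (nat_lit
      0x8776766576656554766565546554544376656554655454436554544354434332766565546554544365545443544343326554544354434332544343324332322176656554655454436554544354434332655454435443433254434332433232216554544354434332544343324332322154434332433232214332322132212110)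
      (Nat.mul (nat_lit 4) (Nat.land U (nat_lit 255)))) (nat_lit 15)) (Nat.land (Nat.shiftRight
      (nat_lit
      0x8776766576656554766565546554544376656554655454436554544354434332766565546554544365545443544343326554544354434332544343324332322176656554655454436554544354434332655454435443433254434332433232216554544354434332544343324332322154434332433232214332322132212110)
      (Nat.mul (nat_lit 4) (Nat.shiftRight U (nat_lit 8)))) (nat_lit 15))))) d))) (nat_lit
      4294967295))) (@Bool.rec (fun _ => Bool) false (Nat.ble (Nat.succ d) (nat_lit 3)) (Nat.beq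
      (Nat.land (Nat.shiftRight (Nat.land U cl) y) (nat_lit 1)) (nat_lit 1))))) ((fun x : ℕ =>
      (Nat.add (Nat.land (Nat.shiftRight (nat_lit
      0x8776766576656554766565546554544376656554655454436554544354434332766565546554544365545443544343326554544354434332544343324332322176656554655454436554544354434332655454435443433254434332433232216554544354434332544343324332322154434332433232214332322132212110)
      (Nat.mul (nat_lit 4) (Nat.land x (nat_lit 255)))) (nat_lit 15)) (Nat.land (Nat.shiftRight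
      (nat_lit
      0x8776766576656554766565546554544376656554655454436554544354434332766565546554544365545443544343326554544354434332544343324332322176656554655454436554544354434332655454435443433254434332433232216554544354434332544343324332322154434332433232214332322132212110)
      (Nat.mul (nat_lit 4) (Nat.shiftRight x (nat_lit 8)))) (nat_lit 15)))) (Nat.xor (Nat.land U
      (Nat.land (Nat.shiftRight Q (Nat.mul (nat_lit 16) y)) (nat_lit 65535))) (Nat.land (Nat.land U
      (Nat.land (Nat.shiftRight Q (Nat.mul (nat_lit 16) y)) (nat_lit 65535))) (Nat.shiftLeft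
      (nat_lit 1) y)))))

noncomputable def evS (w k : ℕ) (g : ℕ → ℕ → ℕ → ℕ → ℕ → ℕ → ℕ → ℕ → ℕ → ℕ → ℕ) (Y T P Q pres cl dom
    U s b : ℕ) : ℕ :=
  (@Bool.rec (fun _ => ℕ) (@Bool.rec (fun _ => ℕ) (@Bool.rec (fun _ => ℕ) (@Bool.rec (fun _ => ℕ)
      ((fun (y : ℕ) (s1 : ℕ) => brmF g Y T P Q pres cl dom U y s1 b) (Nat.land (Nat.shiftRight s
      (nat_lit 3)) (nat_lit 15)) (Nat.shiftRight s (nat_lit 7))) (@Bool.rec (fun _ => ℕ) (nat_lit 0)
      (Nat.add (Nat.shiftLeft (Nat.shiftRight s (nat_lit 7)) (nat_lit 32)) b) (pruneF Y P Q pres cl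
      dom U (Nat.land (Nat.shiftRight s (nat_lit 3)) (nat_lit 15)))) (Nat.beq (Nat.land s (nat_lit
      7)) (nat_lit 2))) ((fun (y : ℕ) => ldF w k Q cl U y (Nat.shiftRight s (nat_lit 7)) b)
      (Nat.land (Nat.shiftRight s (nat_lit 3)) (nat_lit 15))) (Nat.beq (Nat.land s (nat_lit 7))
      (nat_lit 4))) (lfF w k U s b) (Nat.beq (Nat.land s (nat_lit 7)) (nat_lit 3))) ((fun (y : ℕ)
      (s1 : ℕ) => brF g Y T P Q pres cl dom U y s1 b) (Nat.land (Nat.shiftRight s (nat_lit 3))
      (nat_lit 15)) (Nat.shiftRight s (nat_lit 7))) (Nat.beq (Nat.land s (nat_lit 7)) (nat_lit 0)))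

noncomputable def evF (w k f : ℕ) : ℕ → ℕ → ℕ → ℕ → ℕ → ℕ → ℕ → ℕ → ℕ → ℕ → ℕ :=
  @Nat.rec (fun _ => ℕ → ℕ → ℕ → ℕ → ℕ → ℕ → ℕ → ℕ → ℕ → ℕ → ℕ) (fun _ _ _ _ _ _ _ _ _ _ => nat_lit
      0)
    (fun _ g => evS w k g) f

noncomputable def orPowF (p m : ℕ) : ℕ :=
  @Nat.rec (fun _ => ℕ) (nat_lit 0) (fun i a => (Nat.lor a (Nat.shiftLeft (nat_lit 1) (Nat.land
      (Nat.shiftRight p (Nat.mul (nat_lit 4) i)) (nat_lit 15))))) m

noncomputable def pvecF (p x m : ℕ) : ℕ :=
  @Nat.rec (fun _ => ℕ) (nat_lit 0) (fun i a => (Nat.lor a (Nat.shiftLeft (Nat.land (Nat.shiftRight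
      x (Nat.land (Nat.shiftRight p (Nat.mul (nat_lit 4) i)) (nat_lit 15))) (nat_lit 1)) i))) m

noncomputable def pcolF (p M m : ℕ) : ℕ :=
  @Nat.rec (fun _ => ℕ) (nat_lit 0) (fun i a => (Nat.lor a (Nat.shiftLeft (Nat.land (Nat.shiftRight
      M (Nat.land (Nat.shiftRight p (Nat.mul (nat_lit 4) i)) (nat_lit 15))) (nat_lit
      0x1000100010001000100010001000100010001000100010001000100010001)) i))) m

noncomputable def prowF (p M m : ℕ) : ℕ :=
  @Nat.rec (fun _ => ℕ) (nat_lit 0) (fun i a => (Nat.lor a (Nat.shiftLeft (Nat.land (Nat.shiftRight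
      M (Nat.mul (nat_lit 16) (Nat.land (Nat.shiftRight p (Nat.mul (nat_lit 4) i)) (nat_lit 15))))
      (nat_lit 65535)) (Nat.mul (nat_lit 16) i)))) m

noncomputable def refOKF (e p k Y T P Q cl : ℕ) : Bool :=
  (@Bool.rec (fun _ => Bool) false ((fun a : ℕ => (Nat.beq (Nat.land a (Nat.mod (Nat.shiftRight e
      (nat_lit 800)) (nat_lit 0x10000000000000000000000000000000000000000000000000000000000000000)))
      a)) (prowF p (pcolF p Q k) k)) (@Bool.rec (fun _ => Bool) false ((fun a : ℕ => (Nat.beq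
      (Nat.land a (Nat.mod (Nat.shiftRight e (nat_lit 544)) (nat_lit
      0x10000000000000000000000000000000000000000000000000000000000000000))) a)) (prowF p (pcolF p P
      k) k)) (@Bool.rec (fun _ => Bool) false ((fun a : ℕ => (Nat.beq (Nat.land a (prowF p (pcolF p
      T k) k)) a)) (Nat.mod (Nat.shiftRight e (nat_lit 288)) (nat_lit
      0x10000000000000000000000000000000000000000000000000000000000000000))) (@Bool.rec (fun _ =>
      Bool) false ((fun a : ℕ => (Nat.beq (Nat.land a (prowF p (pcolF p Y k) k)) a)) (Nat.mod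
      (Nat.shiftRight e (nat_lit 32)) (nat_lit
      0x10000000000000000000000000000000000000000000000000000000000000000))) (@Bool.rec (fun _ =>
      Bool) false ((fun a : ℕ => (Nat.beq (Nat.land a (pvecF p cl k)) a)) (Nat.land (Nat.shiftRight
      (Nat.shiftRight e (nat_lit 16)) (Nat.mul (nat_lit 16) (nat_lit 0))) (nat_lit 65535)))
      (@Bool.rec (fun _ => Bool) false (Nat.beq (orPowF p k) (Nat.sub (Nat.shiftLeft (nat_lit 1) k)
      (nat_lit 1))) (Nat.beq (Nat.land (Nat.shiftRight e (nat_lit 0)) (nat_lit 15)) k)))))))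

noncomputable def arcF (g : ℕ → ℕ → ℕ → ℕ → ℕ → ℕ → ℕ → ℕ) (k Y T P Q cl i j s : ℕ) : ℕ :=
  (@Bool.rec (fun _ => ℕ) (nat_lit 0) ((fun a b : ℕ => (fun r : ℕ => (@Bool.rec (fun _ => ℕ) (g k
      (Nat.lor Y b) (Nat.lor T a) (Nat.xor P a) (Nat.xor Q b) cl r) (nat_lit 0) (Nat.beq r (nat_lit
      0)))) (g k (Nat.lor Y a) (Nat.lor T b) P Q cl s)) (Nat.shiftLeft (nat_lit 1) (Nat.add (Nat.mul
      (nat_lit 16) i) j)) (Nat.shiftLeft (nat_lit 1) (Nat.add (Nat.mul (nat_lit 16) j) i)))
      (@Bool.rec (fun _ => Bool) false (@Bool.rec (fun _ => Bool) true false (Nat.beq i j))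
      (@Bool.rec (fun _ => Bool) false (Nat.ble (Nat.succ j) k) (Nat.ble (Nat.succ i) k))))

noncomputable def cloF (g : ℕ → ℕ → ℕ → ℕ → ℕ → ℕ → ℕ → ℕ) (k Y T P Q cl x s : ℕ) : ℕ :=
  (@Bool.rec (fun _ => ℕ) (nat_lit 0) ((fun r : ℕ => (@Bool.rec (fun _ => ℕ) ((fun c a b : ℕ => g
      (Nat.succ k) (Nat.lor (Nat.xor Y (Nat.land Y c)) (Nat.lor (Nat.shiftLeft (nat_lit 1) (Nat.add
      (Nat.mul (nat_lit 16) k) x)) a)) (Nat.lor (Nat.xor T (Nat.land T c)) (Nat.lor (Nat.shiftLeft
      (nat_lit 1) (Nat.add (Nat.mul (nat_lit 16) x) k)) b)) (Nat.xor (Nat.lor P c) b) (Nat.xor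
      (Nat.lor Q c) a) cl r) (Nat.lor (Nat.shiftLeft (nat_lit 65535) (Nat.mul (nat_lit 16) k))
      (Nat.shiftLeft (nat_lit 0x1000100010001000100010001000100010001000100010001000100010001) k))
      (Nat.shiftLeft (Nat.land (Nat.mul cl (nat_lit
      0x200040008001000200040008001000200040008001000200040008001)) (nat_lit
      0x1000100010001000100010001000100010001000100010001000100010001)) k) (Nat.shiftLeft cl
      (Nat.mul (nat_lit 16) k))) (nat_lit 0) (Nat.beq r (nat_lit 0)))) (g k Y T P Q (Nat.lor cl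
      (Nat.shiftLeft (nat_lit 1) x)) s)) (@Bool.rec (fun _ => Bool) false (Nat.ble (Nat.succ k)
      (nat_lit 15)) (Nat.ble (Nat.succ x) k)))

noncomputable def lowF (dl k Q x m : ℕ) : Bool :=
  ((fun u : ℕ => (Nat.ble (Nat.succ (Nat.add (Nat.land (Nat.shiftRight (nat_lit
      0x8776766576656554766565546554544376656554655454436554544354434332766565546554544365545443544343326554544354434332544343324332322176656554655454436554544354434332655454435443433254434332433232216554544354434332544343324332322154434332433232214332322132212110)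
      (Nat.mul (nat_lit 4) (Nat.land u (nat_lit 255)))) (nat_lit 15)) (Nat.land (Nat.shiftRight
      (nat_lit
      0x8776766576656554766565546554544376656554655454436554544354434332766565546554544365545443544343326554544354434332544343324332322176656554655454436554544354434332655454435443433254434332433232216554544354434332544343324332322154434332433232214332322132212110)
      (Nat.mul (nat_lit 4) (Nat.shiftRight u (nat_lit 8)))) (nat_lit 15)))) dl)) ((fun v : ℕ =>
      (Nat.xor v (Nat.land v m))) (Nat.land (Nat.land (Nat.shiftRight Q (Nat.mul (nat_lit 16) x))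
      (nat_lit 65535)) (Nat.sub (Nat.shiftLeft (nat_lit 1) k) (nat_lit 1)))))

noncomputable def frcF (g : ℕ → ℕ → ℕ → ℕ → ℕ → ℕ → ℕ → ℕ) (dl k Y T P Q cl i j s : ℕ) : ℕ :=
  (@Bool.rec (fun _ => ℕ) (nat_lit 0) (g k (Nat.lor Y (Nat.shiftLeft (nat_lit 1) (Nat.add (Nat.mul
      (nat_lit 16) i) j))) (Nat.lor T (Nat.shiftLeft (nat_lit 1) (Nat.add (Nat.mul (nat_lit 16) j)
      i))) P Q cl s) (@Bool.rec (fun _ => Bool) false (lowF dl k Q j (Nat.lor (Nat.shiftLeft
      (nat_lit 1) i) (Nat.shiftLeft (nat_lit 1) j))) (@Bool.rec (fun _ => Bool) false (Nat.beq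
      (Nat.land (Nat.shiftRight cl j) (nat_lit 1)) (nat_lit 1)) (Nat.ble (Nat.succ i) k))))

noncomputable def otS (tbl : ℕ → ℕ) (w dl tg j : ℕ) (g : ℕ → ℕ → ℕ → ℕ → ℕ → ℕ → ℕ → ℕ) (k Y T P Q
    cl s : ℕ) : ℕ :=
  (@Bool.rec (fun _ => ℕ) (@Bool.rec (fun _ => ℕ) (@Bool.rec (fun _ => ℕ) (@Bool.rec (fun _ => ℕ)
      (@Bool.rec (fun _ => ℕ) (@Bool.rec (fun _ => ℕ) (nat_lit 0) (Nat.shiftRight s (nat_lit 75))
      (@Bool.rec (fun _ => Bool) false (refOKF (tbl (Nat.land (Nat.shiftRight s (nat_lit 3))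
      (nat_lit 4095))) (Nat.land (Nat.shiftRight s (nat_lit 15)) (nat_lit 1152921504606846975)) k Y
      T P Q cl) (Nat.ble (Nat.succ (Nat.land (Nat.shiftRight s (nat_lit 3)) (nat_lit 4095))) j)))
      (@Bool.rec (fun _ => ℕ) (nat_lit 0) (Nat.shiftRight s (nat_lit 7)) (@Bool.rec (fun _ => Bool)
      false (lowF dl k Q (Nat.land (Nat.shiftRight s (nat_lit 3)) (nat_lit 15)) (Nat.shiftLeft
      (nat_lit 1) (Nat.land (Nat.shiftRight s (nat_lit 3)) (nat_lit 15)))) (Nat.beq (Nat.land
      (Nat.shiftRight cl (Nat.land (Nat.shiftRight s (nat_lit 3)) (nat_lit 15))) (nat_lit 1))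
      (nat_lit 1)))) (Nat.beq (Nat.land s (nat_lit 7)) (nat_lit 2))) (frcF g dl k Y T P Q cl
      (Nat.land (Nat.shiftRight s (nat_lit 3)) (nat_lit 15)) (Nat.land (Nat.shiftRight s (nat_lit
      7)) (nat_lit 15)) (Nat.shiftRight s (nat_lit 11))) (Nat.beq (Nat.land s (nat_lit 7)) (nat_lit
      5))) (cloF g k Y T P Q cl (Nat.land (Nat.shiftRight s (nat_lit 3)) (nat_lit 15))
      (Nat.shiftRight s (nat_lit 7))) (Nat.beq (Nat.land s (nat_lit 7)) (nat_lit 1)))
      (Nat.shiftRight (evF w k (nat_lit 40) Y T P Q (Nat.sub (Nat.shiftLeft (nat_lit 1) k) (nat_lit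
      1)) cl cl (Nat.sub (Nat.shiftLeft (nat_lit 1) k) (nat_lit 1)) (Nat.shiftRight s (nat_lit 3))
      tg) (nat_lit 32)) (Nat.beq (Nat.land s (nat_lit 7)) (nat_lit 4))) (arcF g k Y T P Q cl
      (Nat.land (Nat.shiftRight s (nat_lit 3)) (nat_lit 15)) (Nat.land (Nat.shiftRight s (nat_lit
      7)) (nat_lit 15)) (Nat.shiftRight s (nat_lit 11))) (Nat.beq (Nat.land s (nat_lit 7)) (nat_lit
      0)))

noncomputable def otF (tbl : ℕ → ℕ) (w dl tg j f : ℕ) : ℕ → ℕ → ℕ → ℕ → ℕ → ℕ → ℕ → ℕ :=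
  @Nat.rec (fun _ => ℕ → ℕ → ℕ → ℕ → ℕ → ℕ → ℕ → ℕ) (fun _ _ _ _ _ _ _ => nat_lit 0)
    (fun _ g => otS tbl w dl tg j g) f

noncomputable def chkOneF (tbl : ℕ → ℕ) (w dl tg j s : ℕ) : Bool :=
  (fun e : ℕ => (@Bool.rec (fun _ => Bool) true false (Nat.beq (otF tbl w dl tg j (nat_lit 200)
      (Nat.land (Nat.shiftRight e (nat_lit 0)) (nat_lit 15)) (Nat.mod (Nat.shiftRight e (nat_lit
      32)) (nat_lit 0x10000000000000000000000000000000000000000000000000000000000000000)) (Nat.mod
      (Nat.shiftRight e (nat_lit 288)) (nat_lit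
      0x10000000000000000000000000000000000000000000000000000000000000000)) (Nat.mod (Nat.shiftRight
      e (nat_lit 544)) (nat_lit
      0x10000000000000000000000000000000000000000000000000000000000000000)) (Nat.mod (Nat.shiftRight
      e (nat_lit 800)) (nat_lit
      0x10000000000000000000000000000000000000000000000000000000000000000)) (Nat.land
      (Nat.shiftRight (Nat.shiftRight e (nat_lit 16)) (Nat.mul (nat_lit 16) (nat_lit 0))) (nat_lit
      65535)) s) (nat_lit 0)))) (tbl j)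

noncomputable def chkAllF (tbl : ℕ → ℕ) (w dl tg : ℕ) (L : List ℕ) : ℕ → Bool :=
  @List.rec ℕ (fun _ => ℕ → Bool) (fun _ => true)
    (fun s _ g j => (@Bool.rec (fun _ => Bool) false (g (Nat.succ j)) (chkOneF tbl w dl tg j s))) L


theorem cond_eq {β : Type} (c : Bool) (x y : β) :
    (@Bool.rec (fun _ => β) y x c) = bif c then x else y := by
  cases c <;> rfl

theorem and_eq (a b : Bool) : (bif a then b else false) = (a && b) := by
  cases a <;> rfl

theorem not_eq (a : Bool) : (bif a then false else true) = !a := by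
  cases a <;> rfl

theorem conF_eq : conF = con := by
  funext g Y T P Q pres cl dom U y s b
  simp only [conF, cond_eq]
  rfl

theorem pruneF_eq : pruneF = prune := by
  funext Y P Q pres cl dom U x
  simp only [pruneF, cond_eq, and_eq]
  rfl

theorem evF_eq (w k : ℕ) : ∀ f, evF w k f = ev w k f
  | 0 => by
    funext Y T P Q pres cl dom U s b
    rw [ev]
    rfl
  | f + 1 => by
    funext Y T P Q pres cl dom U s b
    rw [ev, ← evF_eq w k f]
    change evS w k (evF w k f) Y T P Q pres cl dom U s b = _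
    simp only [evS, brF, brmF, lfF, ldF, conF_eq, pruneF_eq, cond_eq, and_eq]
    rfl

theorem orPowF_eq (p : ℕ) : ∀ m, orPowF p m = orPow p m
  | 0 => rfl
  | m + 1 => by rw [orPow, ← orPowF_eq p m]; rfl

theorem pvecF_eq (p x : ℕ) : ∀ m, pvecF p x m = pvec p x m
  | 0 => rfl
  | m + 1 => by rw [pvec, ← pvecF_eq p x m]; rfl

theorem pcolF_eq (p x : ℕ) : ∀ m, pcolF p x m = pcol p x m
  | 0 => rfl
  | m + 1 => by rw [pcol, ← pcolF_eq p x m]; rfl

theorem prowF_eq (p x : ℕ) : ∀ m, prowF p x m = prow p x m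
  | 0 => rfl
  | m + 1 => by rw [prow, ← prowF_eq p x m]; rfl

theorem fld_eq (e : ℕ) :
    Nat.mod (Nat.shiftRight e (nat_lit 32))
      (nat_lit 0x10000000000000000000000000000000000000000000000000000000000000000) = fld e 0 ∧
    Nat.mod (Nat.shiftRight e (nat_lit 288))
      (nat_lit 0x10000000000000000000000000000000000000000000000000000000000000000) = fld e 1 ∧
    Nat.mod (Nat.shiftRight e (nat_lit 544))
      (nat_lit 0x10000000000000000000000000000000000000000000000000000000000000000) = fld e 2 ∧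
    Nat.mod (Nat.shiftRight e (nat_lit 800))
      (nat_lit 0x10000000000000000000000000000000000000000000000000000000000000000) = fld e 3 := by
  have h : bit 256 =
      nat_lit 0x10000000000000000000000000000000000000000000000000000000000000000 := by
    decide +kernel
  unfold fld
  rw [h]
  exact ⟨rfl, rfl, rfl, rfl⟩

theorem refOKF_eq : refOKF = refOK := by
  funext e p k Y T P Q cl
  simp only [refOKF, cond_eq, and_eq, orPowF_eq, pvecF_eq, pcolF_eq, prowF_eq, (fld_eq e).1,
    (fld_eq e).2.1, (fld_eq e).2.2.1, (fld_eq e).2.2.2]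
  rfl

theorem otF_eq (tbl : ℕ → ℕ) (w dl tg j : ℕ) : ∀ f, otF tbl w dl tg j f = ot tbl w dl tg j f
  | 0 => by
    funext k Y T P Q cl s
    rw [ot]
    rfl
  | f + 1 => by
    funext k Y T P Q cl s
    rw [ot, ← otF_eq tbl w dl tg j f]
    change otS tbl w dl tg j (otF tbl w dl tg j f) k Y T P Q cl s = _
    simp only [otS, arcF, cloF, lowF, frcF, refOKF_eq, evF_eq, cond_eq, and_eq, not_eq]
    rfl

theorem chkAllF_eq (tbl : ℕ → ℕ) (w dl tg : ℕ) :
    ∀ L j, chkAllF tbl w dl tg L j = chkAll tbl w dl tg j L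
  | [], _ => rfl
  | s :: L, j => by
    rw [chkAll, ← chkAllF_eq tbl w dl tg L]
    change @Bool.rec (fun _ => Bool) false (chkAllF tbl w dl tg L (Nat.succ j))
      (chkOneF tbl w dl tg j s) = _
    simp only [chkOneF, otF_eq, cond_eq, and_eq, not_eq, (fld_eq _).1,
      (fld_eq _).2.1, (fld_eq _).2.2.1, (fld_eq _).2.2.2]
    rfl

end Pool.Agent.MP_75ef89_co
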