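import Pool.Agent.MP_75ef89_co.Graph

/-! Branching on the source of a maximal acyclic set, and Landau's inequality. -/

namespace Pool.Agent.MP_75ef89_co

open Finset

variable {α : Type} [DecidableEq α] {r : α → α → Prop} {V : Finset α}

open Classical in
/-- Strict out-neighbourhood. -/
noncomputable def outN (r : α → α → Prop) (V : Finset α) (v : α) : Finset α :=
  {z ∈ V | r v z ∧ ¬ r z v}

omit [DecidableEq α] in
theorem mem_outN {v z : α} : z ∈ outN r V v ↔ z ∈ V ∧ r v z ∧ ¬ r z v := by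
  classical
  simp [outN]

theorem card_outN (hV : SC r V) {v : α} (hv : v ∈ V) : #(outN r V v) + indeg r V v + 1 ≤ #V := by
  classical
  have h1 : Disjoint (outN r V v) {u ∈ V | r u v} := by
    rw [disjoint_left]
    intro z hz hz'
    exact (mem_outN.1 hz).2.2 (mem_filter.1 hz').2
  have h2 : outN r V v ∪ {u ∈ V | r u v} ⊆ V.erase v := by
    intro z hz
    rw [mem_union, mem_outN, mem_filter] at hz
    rw [mem_erase]
    rcases hz with hz | hz
    · exact ⟨fun h => hV.irr v hv (h ▸ hz.2.1), hz.1⟩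
    · exact ⟨fun h => hV.irr v hv (h ▸ hz.2), hz.1⟩
  have h3 := card_le_card h2
  rw [card_union_of_disjoint h1] at h3
  have h4 := card_erase_add_one hv
  unfold indeg
  omega

theorem MA.source (hV : SC r V) (hne : V.Nonempty) {W : Finset α} (h : MA r V W) :
    ∃ v ∈ W, MA r (outN r V v) (W.erase v) := by
  classical
  obtain ⟨hs, ha, hm⟩ := h
  have hW : W.Nonempty := by
    obtain ⟨x, hx⟩ := hne
    by_contra hc
    rw [not_nonempty_iff_eq_empty] at hc
    subst hc
    obtain ⟨b, hb, -⟩ := blocked (hV.irr x hx) ha (hm x hx (notMem_empty x))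
    exact notMem_empty b hb
  obtain ⟨v, hv, hmin⟩ := exists_min_image W (indeg r W) hW
  have src : ∀ u ∈ W, ¬ r u v := by
    intro u hu huv
    refine absurd (hmin u hu) (not_le.2 (card_lt_card ⟨fun x hx => ?_, fun hc => ?_⟩))
    · rw [mem_filter] at hx ⊢
      exact ⟨hx.1, ha.trans hV hs hx.1 hu hv hx.2 huv⟩
    · exact hV.irr u (hs hu) (mem_filter.1 (hc (mem_filter.2 ⟨hu, huv⟩))).2
  refine ⟨v, hv, fun z hz => ?_, ha.mono (erase_subset _ _), fun x hx hxW hac => ?_⟩
  · rw [mem_erase] at hz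
    exact mem_outN.2 ⟨hs hz.2, (hV.tot z (hs hz.2) v (hs hv) hz.1).resolve_left (src z hz.2),
      src z hz.2⟩
  · rw [mem_outN] at hx
    have hxv : x ≠ v := fun h => hV.irr v (hs hv) (h ▸ hx.2.1)
    have hxW' : x ∉ W := fun h => hxW (mem_erase.2 ⟨hxv, h⟩)
    obtain ⟨b, hb, h1, h2⟩ := blocked (hV.irr x hx.1) ha (hm x hx.1 hxW')
    have hin : ∀ c ∈ W, c ≠ v → c ∈ insert x (W.erase v) := fun c hc hcv =>
      mem_insert_of_mem (mem_erase.2 ⟨hcv, hc⟩)
    rcases h2 with h2 | ⟨a, haW, h2, h3⟩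
    · exact hac.1 x (mem_insert_self _ _) b (hin b hb fun h => hx.2.2 (h ▸ h2)) h2 h1
    · exact hac.2 x (mem_insert_self _ _) a (hin a haW fun h => hx.2.2 (h ▸ h2)) b
        (hin b hb fun h => src a haW (h ▸ h3)) h2 h3 h1

theorem cnt_le_sum (hV : SC r V) (hne : V.Nonempty) :
    cnt r V (fun _ => False) ≤ ∑ v ∈ V, cnt r (outN r V v) fun _ => False := by
  classical
  have key : ∀ (F : Finset (Finset α)) (G : α → Finset (Finset α)),
      (∀ W ∈ F, ∃ v ∈ V, ∃ W' ∈ G v, insert v W' = W) → #F ≤ ∑ v ∈ V, #(G v) := by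
    intro F G h
    refine le_trans (card_le_card (t := V.biUnion fun v => (G v).image (insert v)) fun W hW => ?_)
      (card_biUnion_le.trans (sum_le_sum fun v _ => card_image_le))
    obtain ⟨v, hv, h'⟩ := h W hW
    exact mem_biUnion.2 ⟨v, hv, mem_image.2 h'⟩
  refine key _ _ fun W hW => ?_
  simp only [mem_filter, mem_powerset] at hW ⊢
  obtain ⟨v, hv, h⟩ := hW.2.1.source hV hne
  exact ⟨v, hW.1 hv, W.erase v, ⟨h.1, h, fun _ _ => id⟩, insert_erase hv⟩

theorem landau (hV : SC r V) {B : Finset α} (hB : B ⊆ V) :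
    #B * (#B - 1) ≤ 2 * ∑ v ∈ B, indeg r V v := by
  classical
  have h1 : ∑ v ∈ B, #{u ∈ B | r u v} = ∑ v ∈ B, #{u ∈ B | r v u} := by
    simp only [card_filter]
    exact sum_comm
  have h2 : ∀ v ∈ B, #B - 1 ≤ #{u ∈ B | r u v} + #{u ∈ B | r v u} := by
    intro v hv
    rw [← card_erase_of_mem hv]
    refine le_trans (card_le_card fun u hu => ?_) (card_union_le _ _)
    rw [mem_erase] at hu
    rw [mem_union, mem_filter, mem_filter]
    exact (hV.tot u (hB hu.2) v (hB hv) hu.1).imp (fun h => ⟨hu.2, h⟩) fun h => ⟨hu.2, h⟩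
  have h3 := sum_le_sum h2
  rw [sum_const, smul_eq_mul, sum_add_distrib, ← h1] at h3
  have h4 : ∑ v ∈ B, #{u ∈ B | r u v} ≤ ∑ v ∈ B, indeg r V v :=
    sum_le_sum fun v _ => card_le_card (filter_subset_filter _ hB)
  omega

theorem tangent {q : ℝ} (h0 : 0 < q) (m e : ℕ) :
    q ^ m + (1 - q) * q ^ m * ((m : ℝ) - e) ≤ q ^ e := by
  rcases le_total m e with h | h
  · obtain ⟨j, rfl⟩ := Nat.exists_eq_add_of_le h
    have h2 := one_add_mul_le_pow (a := q - 1) (by linarith) j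
    rw [show 1 + (q - 1) = q by ring] at h2
    have h3 := mul_le_mul_of_nonneg_left h2 (pow_pos h0 m).le
    rw [pow_add]
    push_cast
    linarith
  · obtain ⟨j, rfl⟩ := Nat.exists_eq_add_of_le h
    have h2 : ∀ j : ℕ, q ^ j * (1 + j * (1 - q)) ≤ 1 := by
      intro j
      induction j with
      | zero => simp
      | succ j ih =>
        have h3 : q * (1 + ((j : ℝ) + 1) * (1 - q)) ≤ 1 + j * (1 - q) := by
          have : (0 : ℝ) ≤ j := Nat.cast_nonneg j
          nlinarith [mul_nonneg this (sq_nonneg (1 - q)), sq_nonneg (1 - q)]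
        have h4 := mul_le_mul_of_nonneg_left h3 (pow_pos h0 j).le
        rw [pow_succ]
        push_cast
        linarith
    have h3 := mul_le_mul_of_nonneg_left (h2 j) (pow_pos h0 e).le
    rw [pow_add]
    push_cast
    linarith

theorem karamata {q : ℝ} (h0 : 0 < q) (h1 : q ≤ 1) (d : α → ℕ) (e : ℕ → ℕ) (A : Finset α) :
    (∀ B ⊆ A, ∑ i ∈ range #B, e i ≤ ∑ v ∈ B, d v) → ∀ M, (∀ v ∈ A, d v ≤ M) →
      ∑ v ∈ A, q ^ d v + (1 - q) * q ^ M * ((∑ v ∈ A, d v : ℕ) - (∑ i ∈ range #A, e i : ℕ) : ℝ) ≤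
        ∑ i ∈ range #A, q ^ e i := by
  induction A using induction_on_max_value d with
  | empty => simp
  | insert a s ha hmax ih =>
    intro hL M hM
    have h2 := ih (fun B hB => hL B (hB.trans (subset_insert _ _))) (d a) hmax
    have h3 := tangent h0 (d a) (e #s)
    have h4 : (0 : ℝ) ≤ (∑ v ∈ insert a s, d v : ℕ) - (∑ i ∈ range #(insert a s), e i : ℕ) :=
      sub_nonneg.2 (Nat.cast_le.2 (hL _ subset_rfl))
    have h5 := mul_le_mul_of_nonneg_right (mul_le_mul_of_nonneg_left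
      (pow_le_pow_of_le_one h0.le h1 (hM a (mem_insert_self _ _))) (sub_nonneg.2 h1)) h4
    rw [card_insert_of_notMem ha, sum_range_succ, sum_insert ha] at h5 ⊢
    rw [sum_range_succ, sum_insert ha]
    push_cast at h2 h5 ⊢
    linarith

omit [DecidableEq α] in
theorem sum_ex (k : ℕ) : ∑ i ∈ range k, (if i < 11 then 5 else i) ≤ 5 * k ∨
    2 * ∑ i ∈ range k, (if i < 11 then 5 else i) ≤ k * (k - 1) := by
  rcases le_total k 11 with h | h
  · left
    rw [sum_congr rfl fun i hi => if_pos (lt_of_lt_of_le (mem_range.1 hi) h)]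
    simp [mul_comm]
  · right
    induction k, h using Nat.le_induction with
    | base => decide
    | succ k hk ih =>
      rw [sum_range_succ, if_neg (by omega)]
      obtain ⟨j, rfl⟩ : ∃ j, k = j + 1 := ⟨k - 1, by omega⟩
      simp only [Nat.add_sub_cancel] at ih ⊢
      nlinarith

theorem sum_pow_indeg (hV : SC r V) (h5 : ∀ v ∈ V, 5 ≤ indeg r V v) {q : ℝ} (h0 : 0 < q)
    (h1 : q ≤ 0.65) : q * ∑ v ∈ V, q ^ indeg r V v ≤ 1 := by
  have hL : ∀ B ⊆ V, ∑ i ∈ range #B, (if i < 11 then 5 else i) ≤ ∑ v ∈ B, indeg r V v := by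
    intro B hB
    have h2 := landau hV hB
    have h3 : #B • 5 ≤ ∑ v ∈ B, indeg r V v :=
      card_nsmul_le_sum B (indeg r V) 5 fun v hv => h5 v (hB hv)
    rw [smul_eq_mul] at h3
    rcases sum_ex #B with h | h <;> omega
  have h2 := karamata h0 (by linarith) (indeg r V) _ V hL (V.sup (indeg r V)) fun v hv => le_sup hv
  have h3 : (0 : ℝ) ≤ (1 - q) * q ^ V.sup (indeg r V) * ((∑ v ∈ V, indeg r V v : ℕ) -
      (∑ i ∈ range #V, (if i < 11 then 5 else i) : ℕ) : ℝ) :=
    mul_nonneg (mul_nonneg (by linarith) (pow_pos h0 _).le)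
      (sub_nonneg.2 (Nat.cast_le.2 (hL _ subset_rfl)))
  have h4 : ∑ i ∈ range #V, q ^ (if i < 11 then 5 else i) ≤ 11 * q ^ 5 + q ^ 11 / (1 - q) := by
    refine le_trans (sum_le_sum_of_subset_of_nonneg (range_mono (Nat.le_add_left _ 11))
      fun i _ _ => (pow_pos h0 _).le) ?_
    rw [← sum_range_add_sum_Ico _ (Nat.le_add_right 11 #V)]
    refine add_le_add (le_of_eq ?_) ?_
    · rw [sum_congr rfl fun i hi => by rw [if_pos (mem_range.1 hi)]]
      simp
    · rw [sum_congr rfl fun i hi => by rw [if_neg (not_lt.2 (mem_Ico.1 hi).1)]]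
      exact geom_sum_Ico_le_of_lt_one h0.le (by linarith)
  have h6 : q ^ 5 ≤ 0.65 ^ 5 := pow_le_pow_left₀ h0.le h1 5
  have h7 : q ^ 11 / (1 - q) ≤ 0.65 ^ 11 / 0.35 :=
    div_le_div₀ (by positivity) (pow_le_pow_left₀ h0.le h1 11) (by norm_num) (by linarith)
  have h8 : ∑ v ∈ V, q ^ indeg r V v ≤ 1.5 := by
    norm_num at h6 h7 ⊢
    linarith
  nlinarith

end Pool.Agent.MP_75ef89_co
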