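import Pool.Agent.MP_75ef89_co.Cert
import Pool.Agent.MP_75ef89_co.Landau

/-! A semicomplete digraph on `n` vertices has at most `21 ^ (n / 7)` maximal acyclic sets. -/

namespace Pool.Agent.MP_75ef89_co

open Finset

variable {α : Type} [DecidableEq α]

noncomputable def bt : ℝ := (21 : ℝ) ^ ((7 : ℕ) : ℝ)⁻¹

theorem bt_pos : 0 < bt := Real.rpow_pos_of_pos (by norm_num) _

theorem bt_pow : bt ^ 7 = 21 := Real.rpow_inv_natCast_pow (by norm_num) (by norm_num)

theorem bt_ge : 1.54 ≤ bt := by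
  refine le_of_pow_le_pow_left₀ (n := 7) (by norm_num) bt_pos.le ?_
  rw [bt_pow]
  norm_num

theorem inv_bt_le : bt⁻¹ ≤ 0.65 := by
  rw [inv_le_comm₀ bt_pos (by norm_num)]
  exact le_trans (by norm_num) bt_ge

noncomputable def cc (d : ℕ) : ℝ :=
  if d = 0 then bt⁻¹ else if d = 1 then 0.89 else if d = 2 then 0.99 else 1

theorem cc_mono {a b : ℕ} (h : a ≤ b) : cc a ≤ cc b := by
  have := inv_bt_le
  unfold cc
  split_ifs <;> first | omega | linarith

theorem cc_pos (d : ℕ) : 0 < cc d := (inv_pos.2 bt_pos).trans_le (cc_mono (Nat.zero_le d))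

theorem wt_ge {m d : ℕ} (h1 : 1 ≤ m) (h2 : m ≤ 15) (hd : d ≤ 3) :
    cc d * 441000000 ≤ wt wtab m d * bt ^ m := by
  have key : ∀ m < 16, 1 ≤ m → 441000000 ^ 7 ≤ wt wtab m 0 ^ 7 * 21 ^ (m + 1) ∧
      392490000 ^ 7 ≤ wt wtab m 1 ^ 7 * 21 ^ m ∧ 436590000 ^ 7 ≤ wt wtab m 2 ^ 7 * 21 ^ m ∧
      441000000 ^ 7 ≤ wt wtab m 3 ^ 7 * 21 ^ m := by
    decide +kernel
  have root : ∀ a w j : ℕ, a ^ 7 ≤ w ^ 7 * 21 ^ j → (a : ℝ) ≤ w * bt ^ j := by
    intro a w j h
    refine le_of_pow_le_pow_left₀ (n := 7) (by norm_num)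
      (mul_nonneg (Nat.cast_nonneg w) (pow_pos bt_pos j).le) ?_
    rw [mul_pow, ← pow_mul, mul_comm j, pow_mul, bt_pow]
    exact_mod_cast h
  obtain ⟨k0, k1, k2, k3⟩ := key m (by omega) h1
  have := root _ _ _ k0
  have := root _ _ _ k1
  have := root _ _ _ k2
  have := root _ _ _ k3
  interval_cases d
  · simp only [cc, if_true]
    rw [inv_mul_le_iff₀ bt_pos]
    push_cast at *
    linarith [pow_succ bt m, mul_assoc (wt wtab m 0 : ℝ) (bt ^ m) bt,
      mul_comm bt ((wt wtab m 0 : ℝ) * bt ^ m), show (wt wtab m 0 : ℝ) * bt ^ (m + 1) =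
        bt * (wt wtab m 0 * bt ^ m) by ring]
  all_goals
    norm_num [cc] at *
    linarith

/-- The statement proved by induction. -/
def Claim (α : Type) [DecidableEq α] (n : ℕ) : Prop :=
  ∀ (r : α → α → Prop) (V : Finset α), SC r V → #V = n → ∀ d,
    (d = 3 ∨ ∃ v ∈ V, indeg r V v ≤ d) → (cnt r V fun _ => False : ℝ) ≤ cc d * bt ^ n

theorem pow_bt_mono {a b : ℕ} (h : a ≤ b) : bt ^ a ≤ bt ^ b :=
  pow_le_pow_right₀ (by linarith [bt_ge]) h

theorem below {n : ℕ} (ih : ∀ m < n, Claim α m) {r : α → α → Prop} {V : Finset α} (hV : SC r V)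
    {m : ℕ} (hm : #V + (m + 1) ≤ n) : (cnt r V fun _ => False : ℝ) ≤ bt⁻¹ ^ (m + 1) * bt ^ n := by
  have h1 := ih _ (by omega) r V hV rfl 3 (Or.inl rfl)
  rw [show cc 3 = 1 by simp [cc], one_mul] at h1
  rw [inv_pow, le_inv_mul_iff₀ (pow_pos bt_pos _)]
  calc bt ^ (m + 1) * (cnt r V fun _ => False : ℝ) ≤ bt ^ (m + 1) * bt ^ #V :=
        mul_le_mul_of_nonneg_left h1 (pow_pos bt_pos _).le
    _ ≤ bt ^ n := by
        rw [← pow_add]
        exact pow_bt_mono (by omega)

theorem table {n : ℕ} (ih : ∀ m < n, Claim α m) : Table α n wtab (bt ^ n / 441000000) := by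
  refine ⟨(div_pos (pow_pos bt_pos n) (by norm_num)).le, by decide +kernel,
    fun r V hV m d h1 h2 hd hc h => ?_⟩
  have h3 : (cnt r V fun _ => False : ℝ) * bt ^ m ≤ cc d * bt ^ n := by
    rcases or_left_comm.1 h with h | h
    · have h4 := mul_le_mul_of_nonneg_right (below ih hV h) (pow_pos bt_pos m).le
      have h5 : bt⁻¹ ^ (m + 1) * bt ^ n * bt ^ m = bt⁻¹ * bt ^ n := by
        rw [pow_succ, inv_pow]
        have := (pow_pos bt_pos m).ne'
        field_simp
      exact h4.trans (h5.le.trans (mul_le_mul_of_nonneg_right (cc_mono (Nat.zero_le d))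
        (pow_pos bt_pos n).le))
    · have h4 := mul_le_mul_of_nonneg_right (ih _ (by omega) r V hV rfl d h) (pow_pos bt_pos m).le
      rw [mul_assoc, ← pow_add] at h4
      exact h4.trans (mul_le_mul_of_nonneg_left (pow_bt_mono hc) (cc_pos d).le)
  have h4 := mul_le_mul_of_nonneg_right (wt_ge h1 h2 hd) (pow_pos bt_pos n).le
  refine le_of_mul_le_mul_right ?_ (pow_pos bt_pos m)
  linarith

theorem of_root {n d c : ℕ} {B : ℝ} (hd : d ≤ 14) (hc : RootOK c d) (hG : Good α n d B c)
    {r : α → α → Prop} {V : Finset α} (hV : SC r V) (hn : #V = n) {v : α} (hv : v ∈ V)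
    (hvd : indeg r V v = d) (hmin : ∀ u ∈ V, d ≤ indeg r V u) :
    (cnt r V fun _ => False : ℝ) ≤ B := by
  classical
  obtain ⟨h1, h2, h3⟩ := hc
  set L := ({u ∈ V | r u v} : Finset α).toList with hL
  have hlen : L.length = d := by rw [hL, length_toList]; exact hvd
  have hmem : ∀ z, z ∈ L ↔ z ∈ V ∧ r z v := fun z => by rw [hL, mem_toList, mem_filter]
  have hnd : (v :: L).Nodup :=
    List.nodup_cons.2 ⟨fun h => hV.irr v hv ((hmem v).1 h).2, nodup_toList _⟩
  have hget : ∀ i (hi : i < (v :: L).length), (v :: L).getD i v = (v :: L)[i] :=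
    fun i hi => List.getD_eq_getElem _ _ hi
  have hl : (v :: L).length = d + 1 := by simp [hlen]
  have hin : ∀ i < d + 1, i ≠ 0 → (v :: L).getD i v ∈ L := by
    intro i hi h0
    obtain ⟨j, rfl⟩ := Nat.exists_eq_succ_of_ne_zero h0
    rw [hget _ (by omega)]
    simp
  refine hG r V (fun i => (v :: L).getD i v) ?_
  rw [h1, h2]
  refine ⟨by omega, hV, hn, fun i hi => ?_, fun i hi j hj he => ?_, hmin, fun i hi j hj hb => ?_,
    fun i hi j hj hb => ?_, fun i hi j hj _ => (h3 i (by omega) j (by omega)).2.2.1,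
    fun i hi j hj _ => (h3 i (by omega) j (by omega)).2.2.2, fun i hi => ?_⟩
  · by_cases h0 : i = 0
    · subst h0
      exact hv
    · exact ((hmem _).1 (hin i hi h0)).1
  · rw [hget i (by omega), hget j (by omega)] at he
    exact (hnd.getElem_inj_iff).1 he
  · obtain ⟨rfl, h0⟩ := (h3 i (by omega) j (by omega)).1 hb
    exact ((hmem _).1 (hin i hi h0)).2
  · obtain ⟨rfl, h0⟩ := (h3 i (by omega) j (by omega)).2.1 hb
    exact ((hmem _).1 (hin j hj h0)).2
  · rw [show (1 : ℕ) = 2 ^ 0 from rfl, Nat.testBit_two_pow, decide_eq_true_eq] at hi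
    subst hi
    refine ⟨by omega, fun z hz hzn hr => ?_⟩
    obtain ⟨j, hj, he⟩ := List.getElem_of_mem (List.mem_cons_of_mem v ((hmem z).2 ⟨hz, hr⟩))
    exact hzn j (by omega) (by rw [hget j hj, he])

theorem cnt_empty (r : α → α → Prop) (X : α → Prop) : cnt r ∅ X ≤ 1 := by
  classical
  exact (card_filter_le _ _).trans (by simp)

theorem le_cnt {r : α → α → Prop} {V : Finset α} {X : α → Prop} {S : Set (Finset α)}
    (h : ∀ W ∈ S, MA r V W ∧ ∀ x ∈ W, ¬ X x) : S.ncard ≤ cnt r V X := by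
  classical
  unfold cnt
  rw [← Set.ncard_coe_finset]
  refine Set.ncard_le_ncard (fun W hW => ?_) (Set.toFinite _)
  exact mem_coe.2 (mem_filter.2 ⟨mem_powerset.2 (h W hW).1.1, h W hW⟩)

theorem claim (n : ℕ) : Claim α n := by
  classical
  induction n using Nat.strong_induction_on with
  | _ n ih =>
  intro r V hV hn d hd
  rcases V.eq_empty_or_nonempty with rfl | hne
  · obtain rfl : d = 3 := hd.resolve_right (by simp)
    obtain rfl : n = 0 := hn.symm
    have : cnt r ∅ (fun _ => False) ≤ 1 := cnt_empty r _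
    simpa [cc] using this
  obtain ⟨v, hv, hmin⟩ := exists_min_image V (indeg r V) hne
  have hT := table ih
  have main : (cnt r V fun _ => False : ℝ) ≤ cc (indeg r V v) * bt ^ n := by
    generalize hδ : indeg r V v = δ at hmin
    rcases (show δ = 0 ∨ δ = 1 ∨ δ = 2 ∨ δ = 3 ∨ δ = 4 ∨ 5 ≤ δ by omega) with
      rfl | rfl | rfl | rfl | rfl | h5
    · have h1 := cnt_branch hV (fun _ => False) v
      rw [cnt_eq_zero (X := fun x => False ∨ x = v) fun W hW hX => ?_, add_zero] at h1
      · have h2 : Vc r V v ⊆ V.erase v := fun z hz =>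
          mem_erase.2 ⟨(mem_Vc.1 hz).2.1, (mem_Vc.1 hz).1⟩
        have h3 := card_le_card h2
        have h4 := card_erase_add_one hv
        have h5 := below ih (hV.con v) (m := 0) (by omega)
        refine le_trans (Nat.cast_le.2 h1) ?_
        simpa [cc] using h5
      · obtain ⟨b, hb, h2, -⟩ := blocked (hV.irr v hv) hW.2.1
          (hW.2.2 v hv fun h => hX v h (Or.inr rfl))
        exact notMem_empty b (card_eq_zero.1 hδ ▸ mem_filter.2 ⟨hW.1 hb, h2⟩)
    · refine (of_root (by norm_num) root1 (good1 hT) hV hn hv hδ hmin).trans (le_of_eq ?_)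
      norm_num [cc, tg1]
      ring
    · refine (of_root (by norm_num) root2 (good2 hT) hV hn hv hδ hmin).trans (le_of_eq ?_)
      norm_num [cc, tg2]
      ring
    · refine (of_root (by norm_num) root3 (good3 hT) hV hn hv hδ hmin).trans (le_of_eq ?_)
      norm_num [cc, tg3]
      ring
    · refine (of_root (by norm_num) root4 (good4 hT) hV hn hv hδ hmin).trans (le_of_eq ?_)
      norm_num [cc, tg4]
      ring
    · have h1 := (Nat.cast_le (α := ℝ)).2 (cnt_le_sum hV hne)
      have h2 := sum_pow_indeg hV (fun u hu => h5.trans (hmin u hu)) (inv_pos.2 bt_pos) inv_bt_le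
      have h3 : ∑ u ∈ V, (cnt r (outN r V u) fun _ => False : ℝ) ≤
          ∑ u ∈ V, bt⁻¹ ^ (indeg r V u + 1) * bt ^ n := sum_le_sum fun u hu =>
        below ih (hV.mono fun z hz => (mem_outN.1 hz).1) (by
          have := card_outN hV hu
          omega)
      simp only [pow_succ _ (indeg r V _), ← sum_mul] at h3
      have h4 := mul_le_mul_of_nonneg_right h2 (pow_pos bt_pos n).le
      rw [show cc δ = 1 by
        unfold cc
        rw [if_neg (by omega), if_neg (by omega), if_neg (by omega)]]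
      push_cast at h1
      linarith
  refine main.trans (mul_le_mul_of_nonneg_right ?_ (pow_pos bt_pos n).le)
  rcases hd with rfl | ⟨u, hu, hd⟩
  · rcases le_total (indeg r V v) 3 with h | h
    · exact cc_mono h
    · refine le_of_eq ?_
      unfold cc
      rw [if_neg (by omega), if_neg (by omega), if_neg (by omega)]
      simp
  · exact cc_mono ((hmin u hu).trans hd)

theorem cnt_pow_le {r : α → α → Prop} {V : Finset α} (hV : SC r V) :
    (cnt r V fun _ => False) ^ 7 ≤ 21 ^ #V := by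
  have h1 := claim _ r V hV rfl 3 (Or.inl rfl)
  rw [show cc 3 = 1 by simp [cc], one_mul] at h1
  have h2 := pow_le_pow_left₀ (Nat.cast_nonneg _) h1 7
  rw [← pow_mul, mul_comm, pow_mul, bt_pow] at h2
  exact_mod_cast h2

end Pool.Agent.MP_75ef89_co
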