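import Pool.Agent.MP_75ef89_co.Inner

/-! Soundness of the outer (structure revealing) part of the checker. -/

namespace Pool.Agent.MP_75ef89_co

open Finset

variable {α : Type} [DecidableEq α]

structure OH (n dl k : ℕ) (r : α → α → Prop) (V : Finset α) (e : ℕ → α) (Y T P Q cl : ℕ) :
    Prop where
  le : k ≤ 15
  sc : SC r V
  card : #V = n
  mem : ∀ i < k, e i ∈ V
  inj : ∀ i < k, ∀ j < k, e i = e j → i = j
  deg : ∀ v ∈ V, dl ≤ indeg r V v
  hY : ∀ i < k, ∀ j < k, Y.testBit (16 * i + j) = true → r (e i) (e j)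
  hT : ∀ i < k, ∀ j < k, T.testBit (16 * i + j) = true → r (e j) (e i)
  hP : ∀ i < k, ∀ j < k, r (e i) (e j) → P.testBit (16 * i + j) = true
  hQ : ∀ i < k, ∀ j < k, r (e j) (e i) → Q.testBit (16 * i + j) = true
  hcl : ∀ i, cl.testBit i = true → i < k ∧ ∀ z ∈ V, (∀ j < k, e j ≠ z) → ¬ r z (e i)

variable {n dl k : ℕ} {e : ℕ → α} {r : α → α → Prop} {V : Finset α} {Y T P Q cl : ℕ}

omit [DecidableEq α] in
theorem pos_eq {i j a b : ℕ} (hj : j < 16) (hb : b < 16)
    (h : (pos i j).testBit (16 * a + b) = true) : i = a ∧ j = b := by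
  rw [tb_pos, decide_eq_true_eq] at h
  omega

omit [DecidableEq α] in
theorem OH.yes (h : OH n dl k r V e Y T P Q cl) {i j : ℕ} (hi : i < k) (hj : j < k)
    (hr : r (e i) (e j)) : OH n dl k r V e (Nat.lor Y (pos i j)) (Nat.lor T (pos j i)) P Q cl := by
  have hk := h.le
  refine { h with hY := fun a ha b hb ht => ?_, hT := fun a ha b hb ht => ?_ }
  · rw [tb_lor, Bool.or_eq_true] at ht
    rcases ht with ht | ht
    · exact h.hY a ha b hb ht
    · obtain ⟨rfl, rfl⟩ := pos_eq (by omega) (by omega) ht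
      exact hr
  · rw [tb_lor, Bool.or_eq_true] at ht
    rcases ht with ht | ht
    · exact h.hT a ha b hb ht
    · obtain ⟨rfl, rfl⟩ := pos_eq (by omega) (by omega) ht
      exact hr

omit [DecidableEq α] in
theorem OH.no (h : OH n dl k r V e Y T P Q cl) {i j : ℕ} (hi : i < k) (hj : j < k)
    (hr : ¬ r (e i) (e j)) :
    OH n dl k r V e Y T (Nat.xor P (pos i j)) (Nat.xor Q (pos j i)) cl := by
  have hk := h.le
  refine { h with hP := fun a ha b hb ht => ?_, hQ := fun a ha b hb ht => ?_ }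
  · rw [tb_xor, h.hP a ha b hb ht]
    cases hp : (pos i j).testBit (16 * a + b)
    · rfl
    · obtain ⟨rfl, rfl⟩ := pos_eq (by omega) (by omega) hp
      exact absurd ht hr
  · rw [tb_xor, h.hQ a ha b hb ht]
    cases hp : (pos j i).testBit (16 * a + b)
    · rfl
    · obtain ⟨rfl, rfl⟩ := pos_eq (by omega) (by omega) hp
      exact absurd ht hr

omit [DecidableEq α] in
theorem OH.close (h : OH n dl k r V e Y T P Q cl) {x : ℕ} (hx : x < k)
    (hc : ∀ z ∈ V, (∀ j < k, e j ≠ z) → ¬ r z (e x)) :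
    OH n dl k r V e Y T P Q (Nat.lor cl (bit x)) :=
  { h with
    hcl := fun i hi => by
      rw [tb_lor, tb_bit, Bool.or_eq_true, decide_eq_true_eq] at hi
      rcases hi with hi | rfl
      · exact h.hcl i hi
      · exact ⟨hx, hc⟩ }

omit [DecidableEq α] in
theorem OH.new (h : OH n dl k r V e Y T P Q cl) {x : ℕ} (hx : x < k) (hk : k < 15) {z : α}
    (hz : z ∈ V) (hzn : ∀ j < k, e j ≠ z) (hr : r z (e x)) :
    OH n dl (Nat.succ k) r V (Function.update e k z)
      (Nat.lor (dif Y (cross k)) (Nat.lor (pos k x) (Nat.shiftLeft (spr cl) k)))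
      (Nat.lor (dif T (cross k)) (Nat.lor (pos x k) (Nat.shiftLeft cl (Nat.mul 16 k))))
      (Nat.xor (Nat.lor P (cross k)) (Nat.shiftLeft cl (Nat.mul 16 k)))
      (Nat.xor (Nat.lor Q (cross k)) (Nat.shiftLeft (spr cl) k)) cl := by
  have e1 : ∀ i < k, Function.update e k z i = e i := fun i hi =>
    Function.update_of_ne (by omega) _ _
  have e2 : Function.update e k z k = z := Function.update_self _ _ _
  have hcl15 : ∀ t, cl.testBit t = true → t < 15 := fun t ht => by have := (h.hcl t ht).1; omega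
  have s1 : ∀ a b : ℕ, b < 16 → (Nat.shiftLeft (spr cl) k).testBit (16 * a + b) = true →
      b = k ∧ cl.testBit a = true := by
    intro a b hb ht
    rw [tb_shl, tb_spr hcl15] at ht
    simp only [Bool.and_eq_true, decide_eq_true_eq] at ht
    have : b = k := by omega
    subst this
    rw [show (16 * a + b - b) / 16 = a by omega] at ht
    exact ⟨rfl, ht.2.2⟩
  have s2 : ∀ a b : ℕ, b < 16 → (Nat.shiftLeft cl (Nat.mul 16 k)).testBit (16 * a + b) = true →
      a = k ∧ cl.testBit b = true := by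
    intro a b hb ht
    rw [tb_shl, show Nat.mul 16 k = 16 * k from rfl] at ht
    simp only [Bool.and_eq_true, decide_eq_true_eq] at ht
    have := hcl15 _ ht.2
    have : a = k := by omega
    subst this
    rw [show 16 * a + b - 16 * a = b by omega] at ht
    exact ⟨rfl, ht.2⟩
  have dom : ∀ a, cl.testBit a = true → r (e a) z := fun a ha =>
    (h.sc.tot _ (h.mem a (h.hcl a ha).1) z hz (hzn a (h.hcl a ha).1)).resolve_right
      ((h.hcl a ha).2 z hz hzn)
  have cr : ∀ M a b : ℕ, a < k + 1 → b < k + 1 → (dif M (cross k)).testBit (16 * a + b) = true →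
      a < k ∧ b < k ∧ M.testBit (16 * a + b) = true := by
    intro M a b ha hb ht
    rw [tb_dif, tb_cross (by omega) (by omega) (by omega)] at ht
    simp only [Bool.and_eq_true, Bool.not_eq_true', Bool.or_eq_false_iff,
      decide_eq_false_iff_not] at ht
    exact ⟨by omega, by omega, ht.1⟩
  have cr2 : ∀ M a b : ℕ, a < k + 1 → b < k + 1 →
      (a < k → b < k → M.testBit (16 * a + b) = true) →
      (Nat.lor M (cross k)).testBit (16 * a + b) = true := by
    intro M a b ha hb ht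
    rw [tb_lor, tb_cross (by omega) (by omega) (by omega)]
    simp only [Bool.or_eq_true, decide_eq_true_eq]
    by_cases h1 : a = k
    · exact Or.inr (Or.inl h1)
    · by_cases h2 : b = k
      · exact Or.inr (Or.inr h2)
      · exact Or.inl (ht (by omega) (by omega))
  refine ⟨hk, h.sc, h.card, fun i hi => ?_, fun i hi j hj he => ?_, h.deg, fun a ha b hb ht => ?_,
    fun a ha b hb ht => ?_, fun a ha b hb ht => ?_, fun a ha b hb ht => ?_, fun i hi => ?_⟩
  · rcases Nat.lt_succ_iff_lt_or_eq.1 hi with hi | rfl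
    · rw [e1 i hi]
      exact h.mem i hi
    · rwa [e2]
  · rcases Nat.lt_succ_iff_lt_or_eq.1 hi with hi | rfl <;>
      rcases Nat.lt_succ_iff_lt_or_eq.1 hj with hj | rfl
    · rw [e1 i hi, e1 j hj] at he
      exact h.inj i hi j hj he
    · rw [e1 i hi, e2] at he
      exact absurd he (hzn i hi)
    · rw [e1 j hj, e2] at he
      exact absurd he.symm (hzn j hj)
    · rfl
  · rw [tb_lor, tb_lor, Bool.or_eq_true, Bool.or_eq_true] at ht
    rcases ht with ht | ht | ht
    · obtain ⟨h1, h2, h3⟩ := cr _ a b ha hb ht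
      rw [e1 a h1, e1 b h2]
      exact h.hY a h1 b h2 h3
    · obtain ⟨rfl, rfl⟩ := pos_eq (by omega) (by omega) ht
      rwa [e2, e1 x hx]
    · obtain ⟨rfl, h1⟩ := s1 a b (by omega) ht
      rw [e2, e1 a (h.hcl a h1).1]
      exact dom a h1
  · rw [tb_lor, tb_lor, Bool.or_eq_true, Bool.or_eq_true] at ht
    rcases ht with ht | ht | ht
    · obtain ⟨h1, h2, h3⟩ := cr _ a b ha hb ht
      rw [e1 a h1, e1 b h2]
      exact h.hT a h1 b h2 h3
    · obtain ⟨rfl, rfl⟩ := pos_eq (by omega) (by omega) ht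
      rwa [e2, e1 x hx]
    · obtain ⟨rfl, h1⟩ := s2 a b (by omega) ht
      rw [e2, e1 b (h.hcl b h1).1]
      exact dom b h1
  · rw [tb_xor, cr2 P a b ha hb fun h1 h2 => h.hP a h1 b h2 (by rwa [e1 a h1, e1 b h2] at ht)]
    cases hp : (Nat.shiftLeft cl (Nat.mul 16 k)).testBit (16 * a + b)
    · rfl
    · obtain ⟨rfl, h1⟩ := s2 a b (by omega) hp
      rw [e2, e1 b (h.hcl b h1).1] at ht
      exact absurd ht ((h.hcl b h1).2 z hz hzn)
  · rw [tb_xor, cr2 Q a b ha hb fun h1 h2 => h.hQ a h1 b h2 (by rwa [e1 a h1, e1 b h2] at ht)]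
    cases hp : (Nat.shiftLeft (spr cl) k).testBit (16 * a + b)
    · rfl
    · obtain ⟨rfl, h1⟩ := s1 a b (by omega) hp
      rw [e2, e1 a (h.hcl a h1).1] at ht
      exact absurd ht ((h.hcl a h1).2 z hz hzn)
  · obtain ⟨h1, h2⟩ := h.hcl i hi
    refine ⟨by omega, fun u hu hun => ?_⟩
    rw [e1 i h1]
    exact h2 u hu fun j hj => e1 j hj ▸ hun j (by omega)

theorem OH.deg_le (h : OH n dl k r V e Y T P Q cl) {x m : ℕ} (hx : cl.testBit x = true)
    (hm : ∀ i < k, m.testBit i = true → ¬ r (e i) (e x)) :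
    dl ≤ pc (dif (Nat.land (row Q x) (msk k)) m) := by
  classical
  have hk := h.le
  obtain ⟨h1, h2⟩ := h.hcl x hx
  refine (h.deg _ (h.mem x h1)).trans (card_image_le_pc (e := e) (fun t ht => ?_) fun z hz => ?_)
  · rw [tb_dif, tb_land, tb_msk] at ht
    simp only [Bool.and_eq_true, decide_eq_true_eq] at ht
    omega
  · rw [mem_filter] at hz
    by_contra hc
    refine h2 z hz.1 (fun j hj he => hc ⟨j, ?_, he⟩) hz.2
    subst he
    have h16 : j < 16 := by omega
    rw [tb_dif, tb_land, tb_msk, tb_row, h.hQ x h1 j hj hz.2]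
    cases hj' : m.testBit j
    · simp [h16, hj]
    · exact absurd hz.2 (hm j hj hj')

omit [DecidableEq α] in
theorem OH.ref (h : OH n dl k r V e Y T P Q cl) {c p : ℕ} (hr : refOK c p k Y T P Q cl = true) :
    OH n dl (nib c 0) r V (fun i => e (pv p i)) (fld c 0) (fld c 1) (fld c 2) (fld c 3)
      (row (Nat.shiftRight c 16) 0) := by
  have hk := h.le
  simp only [refOK, Bool.and_eq_true, Nat.beq_eq] at hr
  obtain ⟨⟨⟨⟨⟨⟨h0, h1⟩, h2⟩, h3⟩, h4⟩, h5⟩, h6⟩ := hr
  rw [h0]
  have key : ∀ t, t < k ↔ ∃ i < k, pv p i = t := fun t => by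
    rw [← tb_orPow, h1, tb_msk, decide_eq_true_eq]
  have lt : ∀ i < k, pv p i < k := fun i hi => (key _).2 ⟨i, hi, rfl⟩
  have inj : Set.InjOn (pv p) (range k : Finset ℕ) := by
    rw [← card_image_iff]
    congr 1
    ext t
    simp only [mem_image, mem_range]
    exact (key t).symm
  refine ⟨hk, h.sc, h.card, fun i hi => h.mem _ (lt i hi), fun i hi j hj he => ?_, h.deg,
    fun a ha b hb ht => ?_, fun a ha b hb ht => ?_, fun a ha b hb ht => ?_,
    fun a ha b hb ht => ?_, fun i hi => ?_⟩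
  · exact inj (by simpa using hi) (by simpa using hj) (h.inj _ (lt i hi) _ (lt j hj) he)
  · exact h.hY _ (lt a ha) _ (lt b hb) (tb_pm p Y (by omega) ha hb ▸ sub_imp h3 ht)
  · exact h.hT _ (lt a ha) _ (lt b hb) (tb_pm p T (by omega) ha hb ▸ sub_imp h4 ht)
  · refine sub_imp h5 ?_
    rw [tb_pm p P (by omega) ha hb]
    exact h.hP _ (lt a ha) _ (lt b hb) ht
  · refine sub_imp h6 ?_
    rw [tb_pm p Q (by omega) ha hb]
    exact h.hQ _ (lt a ha) _ (lt b hb) ht
  · have h7 := sub_imp h2 hi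
    rw [tb_pvec, Bool.and_eq_true, decide_eq_true_eq] at h7
    refine ⟨h7.1, fun z hz hzn => (h.hcl _ h7.2).2 z hz fun j hj => ?_⟩
    obtain ⟨i', hi', rfl⟩ := (key j).1 hj
    exact hzn i' hi'

theorem OH.inner {w tg s : ℕ} {Z : ℝ} (hT : Table α n w Z) (htg : tg < 4294967295)
    (h : OH n dl k r V e Y T P Q cl)
    (hs : ev w k 40 Y T P Q (msk k) cl cl (msk k) s tg ≠ 0) :
    (cnt r V fun _ => False : ℝ) ≤ tg * Z := by
  classical
  set R : Finset α := V \ (range k).image e with hR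
  have hmem : ∀ z, z ∈ R ↔ z ∈ V ∧ ∀ j < k, e j ≠ z := fun z => by simp [hR]
  have hN : Names n k e R := by
    refine ⟨h.le, h.inj, ?_⟩
    have h1 : (range k).image e ⊆ V := fun z hz => by
      obtain ⟨i, hi, rfl⟩ := mem_image.1 hz
      exact h.mem i (mem_range.1 hi)
    have h2 : #((range k).image e) = k := by
      rw [card_image_of_injOn fun i hi j hj => h.inj i (by simpa using hi) j (by simpa using hj),
        card_range]
    have := card_sdiff_add_card_eq_card h1
    rw [h2, h.card] at this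
    exact this.le
  have hH : Hold k e R r V Y T P Q (msk k) cl cl (msk k) := by
    refine ⟨h.sc, fun z hz => ?_, fun i hi j hj _ _ => h.hY i hi j hj,
      fun i hi j hj _ _ => h.hT i hi j hj, fun i hi j hj _ _ => h.hP i hi j hj,
      fun i hi j hj _ _ => h.hQ i hi j hj, fun i hi => ?_,
      fun i _ hi _ z hz hzR => (h.hcl i hi).2 z hz ((hmem z).1 hzR).2,
      fun i hi hc hiV z hz hzR => ?_, fun i hi => ?_⟩
    · by_contra hc
      push Not at hc
      exact hc.1 ((hmem z).2 ⟨hz, hc.2⟩)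
    · rw [tb_msk, decide_eq_true_eq] at hi
      exact ⟨hi, h.mem i hi⟩
    · exact (h.sc.tot _ hiV z hz (((hmem z).1 hzR).2 i hi)).resolve_right
        ((h.hcl i hc).2 z hz ((hmem z).1 hzR).2)
    · rwa [tb_msk, decide_eq_true_eq] at hi
  have h1 := ev_sound hT hN 40 r V _ _ _ _ _ _ _ _ s tg hH htg hs
  have h2 : cnt r V (fun _ => False) ≤ cnt r V (XU k e (msk k)) := cnt_mono (by
    rintro x _ ⟨i, hi, -, hb⟩
    simp [tb_msk, hi] at hb)
  have h3 := (Nat.cast_le (α := ℝ)).2 h2
  have h4 := mul_nonneg (Nat.cast_nonneg (α := ℝ)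
    (lo (ev w k 40 Y T P Q (msk k) cl cl (msk k) s tg))) hT.nonneg
  linarith

/-- The state with code `c` forces the bound `B`. -/
def Good (α : Type) [DecidableEq α] (n dl : ℕ) (B : ℝ) (c : ℕ) : Prop :=
  ∀ (r : α → α → Prop) (V : Finset α) (e : ℕ → α),
    OH n dl (nib c 0) r V e (fld c 0) (fld c 1) (fld c 2) (fld c 3) (row (Nat.shiftRight c 16) 0) →
      (cnt r V fun _ => False : ℝ) ≤ B

theorem ot_sound {w tg j : ℕ} {Z : ℝ} {tbl : ℕ → ℕ} (hT : Table α n w Z) (htg : tg < 4294967295)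
    (hG : ∀ i < j, Good α n dl (tg * Z) (tbl i)) :
    ∀ (f k : ℕ) (e : ℕ → α) (Y T P Q cl s : ℕ), OH n dl k r V e Y T P Q cl →
      ot tbl w dl tg j f k Y T P Q cl s ≠ 0 → (cnt r V fun _ => False : ℝ) ≤ tg * Z
  | 0, _, _, _, _, _, _, _, _, _, h => absurd (by rw [ot]) h
  | f + 1, k, e, Y, T, P, Q, cl, s, hH, h => by
    rw [ot] at h
    beta_reduce at h
    cases h0 : Nat.beq (Nat.land s 7) 0
    swap
    · rw [h0, cond_true] at h
      obtain ⟨hc, e1⟩ := of_cond h
      rw [e1] at h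
      obtain ⟨h1, e2⟩ := ne_of_cond h
      rw [e2] at h
      simp only [Bool.and_eq_true, Nat.blt_eq, Bool.not_eq_true'] at hc
      obtain ⟨⟨hi, hj⟩, hne⟩ := hc
      by_cases hr : r (e (nib s 3)) (e (nib s 7))
      · exact ot_sound hT htg hG f _ _ _ _ _ _ _ _ (hH.yes hi hj hr) h1
      · have hr' := (hH.sc.tot _ (hH.mem _ hi) _ (hH.mem _ hj) fun he =>
          Nat.ne_of_beq_eq_false hne (hH.inj _ hi _ hj he)).resolve_left hr
        exact ot_sound hT htg hG f _ _ _ _ _ _ _ _ ((hH.yes hj hi hr').no hi hj hr) h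
    rw [h0, cond_false] at h
    cases h4 : Nat.beq (Nat.land s 7) 4
    swap
    · rw [h4, cond_true] at h
      exact hH.inner hT htg fun h' => h (by rw [h']; rfl)
    rw [h4, cond_false] at h
    cases h1 : Nat.beq (Nat.land s 7) 1
    swap
    · rw [h1, cond_true] at h
      obtain ⟨hc, e1⟩ := of_cond h
      rw [e1] at h
      obtain ⟨h2, e2⟩ := ne_of_cond h
      rw [e2] at h
      simp only [Bool.and_eq_true, Nat.blt_eq] at hc
      by_cases hx : ∀ z ∈ V, (∀ j < k, e j ≠ z) → ¬ r z (e (nib s 3))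
      · exact ot_sound hT htg hG f _ _ _ _ _ _ _ _ (hH.close hc.1 hx) h2
      · push Not at hx
        obtain ⟨z, hz, hzn, hr⟩ := hx
        exact ot_sound hT htg hG f _ _ _ _ _ _ _ _ (hH.new hc.1 hc.2 hz hzn hr) h
    rw [h1, cond_false] at h
    cases h5 : Nat.beq (Nat.land s 7) 5
    swap
    · rw [h5, cond_true] at h
      obtain ⟨hc, e1⟩ := of_cond h
      rw [e1] at h
      simp only [Bool.and_eq_true, Nat.blt_eq, tb_eq] at hc
      obtain ⟨⟨hi, hj⟩, hlt⟩ := hc
      have hj' := (hH.hcl _ hj).1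
      refine ot_sound hT htg hG f _ _ _ _ _ _ _ _ (hH.yes hi hj' ?_) h
      by_contra hr
      refine absurd (hH.deg_le hj fun i hik hb => ?_) (not_le.2 hlt)
      rw [tb_lor, tb_bit, tb_bit, Bool.or_eq_true, decide_eq_true_eq, decide_eq_true_eq] at hb
      rcases hb with rfl | rfl
      · exact hr
      · exact hH.sc.irr _ (hH.mem _ hik)
    rw [h5, cond_false] at h
    cases h2 : Nat.beq (Nat.land s 7) 2
    swap
    · rw [h2, cond_true] at h
      obtain ⟨hc, -⟩ := of_cond h
      simp only [Bool.and_eq_true, Nat.blt_eq, tb_eq] at hc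
      refine absurd (hH.deg_le hc.1 fun i hik hb => ?_) (not_le.2 hc.2)
      rw [tb_bit, decide_eq_true_eq] at hb
      subst hb
      exact hH.sc.irr _ (hH.mem _ hik)
    rw [h2, cond_false] at h
    obtain ⟨hc, -⟩ := of_cond h
    simp only [Bool.and_eq_true, Nat.blt_eq] at hc
    exact hG _ hc.1 r V _ (hH.ref hc.2)

theorem chkAll_sound {w tg : ℕ} {Z : ℝ} {tbl : ℕ → ℕ} (hT : Table α n w Z)
    (htg : tg < 4294967295) : ∀ (L : List ℕ) (j : ℕ), chkAll tbl w dl tg j L = true →
      (∀ i < j, Good α n dl (tg * Z) (tbl i)) → ∀ i < j + L.length, Good α n dl (tg * Z) (tbl i)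
  | [], _, _, hG => hG
  | s :: L, j, h, hG => by
    rw [chkAll, Bool.and_eq_true] at h
    have := chkAll_sound hT htg L (Nat.succ j) h.2 fun i hi => by
      rcases Nat.lt_succ_iff_lt_or_eq.1 hi with hi | rfl
      · exact hG i hi
      · intro r V e hH
        refine ot_sound hT htg hG 200 _ e _ _ _ _ _ s hH fun h0 => ?_
        have h1 := h.1
        simp only [chkOne, h0] at h1
        exact absurd h1 (by decide)
    intro i hi
    exact this i (by simp only [List.length_cons, Nat.succ_eq_add_one] at hi ⊢; omega)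

end Pool.Agent.MP_75ef89_co
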