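import Pool.Agent.MP_75ef89_co.Main

/-! Maximal transitive subtournaments: `f n ≤ 21 ^ (n / 7)`, with equality when `7 ∣ n`. -/

namespace Pool.Agent.MP_75ef89_co.SharpGrowth

open Finset

/-- `T` has no loops and exactly one arc between any two distinct vertices. -/
def IsTournament {n : ℕ} (T : Fin n → Fin n → Prop) : Prop :=
  (∀ u, ¬ T u u) ∧ ∀ u v, u ≠ v → (T u v ∧ ¬ T v u) ∨ (T v u ∧ ¬ T u v)

/-- The subtournament induced on `W` is transitive. -/
def IsTransitiveOn {n : ℕ} (T : Fin n → Fin n → Prop) (W : Finset (Fin n)) : Prop :=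
  ∀ a ∈ W, ∀ b ∈ W, ∀ c ∈ W, T a b → T b c → T a c

/-- The number of vertex sets of maximal transitive subtournaments of `T`. -/
noncomputable def m {n : ℕ} (T : Fin n → Fin n → Prop) : ℕ :=
  Set.ncard {W : Finset (Fin n) | IsTransitiveOn T W ∧ ∀ W', W ⊂ W' → ¬ IsTransitiveOn T W'}

/-- The largest value of `m` over the tournaments on `n` vertices. -/
noncomputable def f (n : ℕ) : ℕ :=
  sSup {k | ∃ T : Fin n → Fin n → Prop, IsTournament T ∧ m T = k}

open Pool.Agent.MP_75ef89_co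

theorem m_pow_le {n : ℕ} {T : Fin n → Fin n → Prop} (hT : IsTournament T) : m T ^ 7 ≤ 21 ^ n := by
  classical
  have hV : SC T univ := ⟨fun a _ => hT.1 a, fun a _ b _ h => (hT.2 a b h).imp And.left And.left⟩
  have h1 := cnt_pow_le hV
  rw [card_univ, Fintype.card_fin] at h1
  refine le_trans (Nat.pow_le_pow_left (le_cnt fun W hW => ?_) 7) h1
  exact ⟨⟨subset_univ _, ⟨fun a ha b hb h1 h2 => hT.1 a (hW.1 a ha b hb a ha h1 h2),
    fun a ha b hb c hc h1 h2 h3 => hT.1 c (hW.1 c hc a ha c hc h3 (hW.1 a ha b hb c hc h1 h2))⟩,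
    fun x _ hx hac => hW.2 _ (ssubset_insert hx) fun a ha b hb c hc =>
      hac.trans hV (subset_univ _) ha hb hc⟩, fun _ _ => id⟩

def pal (i j : Fin 7) : Prop := j = i + 1 ∨ j = i + 2 ∨ j = i + 4

instance : DecidableRel pal := fun i j => by unfold pal; infer_instance

def tr (t : Finset (Fin 7)) : Prop := ∀ a ∈ t, ∀ b ∈ t, ∀ c ∈ t, pal a b → pal b c → pal a c

instance : DecidablePred tr := fun t => by unfold tr; infer_instance

def tri : Finset (Finset (Fin 7)) := {t | tr t ∧ ∀ x ∉ t, ¬ tr (insert x t)}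

theorem card_tri : tri.card = 21 := by decide +kernel

theorem exists_ge (k : ℕ) :
    ∃ T : Fin (7 * k) → Fin (7 * k) → Prop, IsTournament T ∧ 21 ^ k ≤ m T := by
  classical
  let E : Fin (7 * k) ≃ Fin 7 × Fin k := finProdFinEquiv.symm
  let T : Fin (7 * k) → Fin (7 * k) → Prop := fun a b =>
    (E a).2 < (E b).2 ∨ ((E a).2 = (E b).2 ∧ pal (E a).1 (E b).1)
  have p1 : ∀ i, ¬ pal i i := by decide
  have p2 : ∀ i j, i ≠ j → (pal i j ↔ ¬ pal j i) := by decide
  refine ⟨T, ⟨fun u => by simp [T, p1], fun u v h => ?_⟩, ?_⟩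
  · rcases lt_trichotomy (E u).2 (E v).2 with h1 | h1 | h1
    · exact Or.inl ⟨Or.inl h1, by simp [T, h1.not_gt, h1.ne']⟩
    · have h2 : (E u).1 ≠ (E v).1 := fun h2 => h (E.injective (Prod.ext h2 h1))
      simp only [T, h1, lt_irrefl, false_or, true_and]
      by_cases h3 : pal (E u).1 (E v).1
      · exact Or.inl ⟨h3, (p2 _ _ h2).1 h3⟩
      · exact Or.inr ⟨(p2 _ _ h2.symm).2 h3, h3⟩
    · exact Or.inr ⟨Or.inl h1, by simp [T, h1.not_gt, h1.ne']⟩
  · let Φ : (Fin k → Finset (Fin 7)) → Finset (Fin (7 * k)) := fun g => {a | (E a).1 ∈ g (E a).2}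
    have hΦ : ∀ g a, a ∈ Φ g ↔ (E a).1 ∈ g (E a).2 := fun g a => by simp [Φ]
    have hinj : Function.Injective Φ := by
      intro g g' h
      ext s i
      have := (hΦ g (E.symm (i, s))).symm.trans (h ▸ hΦ g' (E.symm (i, s)))
      simpa using this
    have hc : #((Fintype.piFinset fun _ : Fin k => tri).image Φ) = 21 ^ k := by
      rw [card_image_of_injective _ hinj, Fintype.card_piFinset]
      simp [card_tri]
    rw [← hc, ← Set.ncard_coe_finset]
    refine Set.ncard_le_ncard (fun W hW => ?_) (Set.toFinite _)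
    obtain ⟨g, hg, rfl⟩ := mem_image.1 (mem_coe.1 hW)
    have hg' : ∀ s, tr (g s) ∧ ∀ x ∉ g s, ¬ tr (insert x (g s)) := fun s => by
      simpa [tri] using Fintype.mem_piFinset.1 hg s
    refine ⟨fun a ha b hb c hc h1 h2 => ?_, fun W' hW' htr => ?_⟩
    · rw [hΦ] at ha hb hc
      rcases h1 with h1 | h1 <;> rcases h2 with h2 | h2
      · exact Or.inl (h1.trans h2)
      · exact Or.inl (h1.trans_eq h2.1)
      · exact Or.inl (h1.1.trans_lt h2)
      · exact Or.inr ⟨h1.1.trans h2.1,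
          (hg' (E b).2).1 _ (h1.1 ▸ ha) _ hb _ (h2.1 ▸ hc) h1.2 h2.2⟩
    · obtain ⟨x, hx, hxW⟩ := exists_of_ssubset hW'
      rw [hΦ] at hxW
      have hin : ∀ i ∈ insert (E x).1 (g (E x).2), E.symm (i, (E x).2) ∈ W' := by
        intro i hi
        rcases mem_insert.1 hi with rfl | hi
        · simpa using hx
        · exact hW'.1 ((hΦ _ _).2 (by simpa using hi))
      refine (hg' _).2 _ hxW fun a ha b hb c hc h1 h2 => ?_
      simpa [T] using htr _ (hin a ha) _ (hin b hb) _ (hin c hc) (by simpa [T] using h1)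
        (by simpa [T] using h2)

theorem bdd (n : ℕ) : BddAbove {k | ∃ T : Fin n → Fin n → Prop, IsTournament T ∧ m T = k} := by
  refine ⟨21 ^ n, ?_⟩
  rintro _ ⟨T, hT, rfl⟩
  exact (Nat.le_self_pow (by norm_num) _).trans (m_pow_le hT)

theorem f_pow_le (n : ℕ) : f n ^ 7 ≤ 21 ^ n := by
  have hne : {k | ∃ T : Fin n → Fin n → Prop, IsTournament T ∧ m T = k}.Nonempty :=
    ⟨_, (· < ·), ⟨lt_irrefl, fun u v h => by
      rcases lt_or_gt_of_ne h with h | h
      · exact Or.inl ⟨h, h.not_gt⟩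
      · exact Or.inr ⟨h, h.not_gt⟩⟩, rfl⟩
  obtain ⟨T, hT, h⟩ := Nat.sSup_mem hne (bdd n)
  rw [f, ← h]
  exact m_pow_le hT

theorem result : (∀ n, f n ^ 7 ≤ 21 ^ n) ∧ ∀ k, f (7 * k) = 21 ^ k := by
  refine ⟨f_pow_le, fun k => le_antisymm ?_ ?_⟩
  · have := f_pow_le (7 * k)
    rwa [pow_mul', Nat.pow_le_pow_iff_left (by norm_num)] at this
  · obtain ⟨T, hT, h⟩ := exists_ge k
    exact h.trans (le_csSup (bdd _) ⟨T, hT, rfl⟩)

end Pool.Agent.MP_75ef89_co.SharpGrowth
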