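import Pool.Agent.MP_75ef89_co.Fast

namespace Pool.Agent.MP_75ef89_co

def wtab : ℕ := 0x9e08e0009c7450008ca6a000664c2000f4240000f1b31000d94910009e08e0017929b001756430014facd000f424000246a9b00240d610020691e0017929b003842180037b213003211dd00246a9b0056e92e00560ab0004d59c600384218008643d10084ec1900777eea0056e92e00cf6b8f00cd589000b89a9b008643d101406f40013d3af1011d2fd100cf6b8f01ef069c01ea135801b892af01406f4002fcbe9202f518d402a89f5f01ef069c049d6bd804919b68041b770602fcbe92072120b0070ee05c06585d18049d6bd80b038ffe0ae75dea09cd691d072120b01103d29a10d843b20f24aea30b038ffeffffffffffffffffffffffffffffffff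
def tg1 : ℕ := 392490000
def tg2 : ℕ := 436590000
def tg3 : ℕ := 441000000
def tg4 : ℕ := 441000000

end Pool.Agent.MP_75ef89_co
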